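import Pool.Agent.Lib_helper57.LDS.Logw

/-!
# LDS, block POS: positivity of the net and of the letters, shift, square root of the weights
-/

set_option autoImplicit false
set_option linter.unusedSectionVars false

open Matrix
open scoped ComplexOrder Kronecker MatrixOrder
open Pool.Agent.Lib_helper98.Renyi Pool.Agent.Lib_helper59.Lieb Pool.Agent.Lib_helper59.RCT

namespace Pool.Agent.LDS

variable {n m κ : Type} [Fintype n] [DecidableEq n] [Fintype m] [DecidableEq m]
  [Fintype κ] [DecidableEq κ]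

theorem bdm_eq_EB (U : m → Matrix n n ℂ) : bdm U = EB U := rfl

/-- the inverse Gram matrix -/
theorem Obt.posDef {F : Matrix κ m ℂ} {g : m → ℝ} {K : Matrix m m ℝ} (h : Obt F g K) :
    (dg g - cm K).PosDef := by
  have hG : (Fᴴ * F).PosSemidef := posSemidef_conjTranspose_mul_self F
  have hu : IsUnit (Fᴴ * F) := by
    rw [Matrix.isUnit_iff_isUnit_det]
    have h1 := congrArg Matrix.det h.inv
    rw [det_mul, det_one] at h1
    exact IsUnit.of_mul_eq_one _ h1
  have hP : (Fᴴ * F).PosDef := hG.posDef_iff_isUnit.2 hu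
  have e : dg g - cm K = (Fᴴ * F)⁻¹ := (Matrix.inv_eq_right_inv h.inv).symm
  rw [e]
  exact hP.inv

theorem Obt.symm {F : Matrix κ m ℂ} {g : m → ℝ} {K : Matrix m m ℝ} (h : Obt F g K) :
    Kᵀ = K := by
  have h1 := h.posDef.isHermitian
  ext i j
  rw [transpose_apply]
  by_cases hij : i = j
  · rw [hij]
  · have h2 := congrFun (congrFun h1 i) j
    rw [conjTranspose_apply, Matrix.sub_apply, Matrix.sub_apply, dg, diagonal_apply_ne _ hij,
      diagonal_apply_ne _ (Ne.symm hij), zero_sub, zero_sub, cm, Matrix.map_apply,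
      Matrix.map_apply] at h2
    have h3 := congrArg Complex.re h2
    simpa using h3

theorem Obt.g_pos {F : Matrix κ m ℂ} {g : m → ℝ} {K : Matrix m m ℝ} (h : Obt F g K) (i : m) :
    0 < g i := by
  have h1 := h.posDef.diag_pos (i := i)
  rw [Matrix.sub_apply, dg, diagonal_apply_eq, cm, Matrix.map_apply, ← Complex.ofReal_sub,
    Complex.zero_lt_real] at h1
  have h2 := h.nonneg i i
  linarith

/-- `a A + d D` -/
theorem comb_psd {A D : Matrix n n ℂ} (hAD : PP A D) {a d : ℝ} (had : |d| ≤ a) :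
    (a • A + d • D).PosSemidef := by
  have h1 : a • A + d • D = ((a + d) / 2) • (A + D) + ((a - d) / 2) • (A - D) := by
    rw [smul_add, smul_sub]
    have e1 : a • A = ((a + d) / 2) • A + ((a - d) / 2) • A := by
      rw [← add_smul]
      congr 1
      ring
    have e2 : d • D = ((a + d) / 2) • D - ((a - d) / 2) • D := by
      rw [← sub_smul]
      congr 1
      ring
    rw [e1, e2]
    abel
  have h2 := abs_le.1 had
  rw [h1]
  exact (hAD.add.smul (by linarith)).add (hAD.sub.smul (by linarith))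

theorem net_let3 (g a d : m → ℝ) (A D : Matrix n n ℂ) (K : Matrix m m ℝ) :
    net (let3 g a d A D) K =
      (dg g - cm K) ⊗ₖ (1 : Matrix n n ℂ) + EB (fun i => a i • A + d i • D) := by
  ext p q
  simp only [net, bdm, cm, let3, EB, dg, Matrix.sub_apply, Matrix.add_apply, Matrix.of_apply,
    kroneckerMap_apply, Matrix.map_apply, Matrix.smul_apply, diagonal_apply]
  by_cases h : p.1 = q.1
  · simp only [h]
    by_cases h' : p.2 = q.2
    · simp [h']
      ring
    · simp [h']
  · simp [h]

theorem Obt.net_posDef {F : Matrix κ m ℂ} {g : m → ℝ} {K : Matrix m m ℝ} (h : Obt F g K)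
    {A D : Matrix n n ℂ} (hAD : PP A D) {a d : m → ℝ} (had : ∀ i, |d i| ≤ a i) :
    (net (let3 g a d A D) K).PosDef := by
  rw [net_let3]
  exact (h.posDef.kronecker PosDef.one).add_posSemidef
    (EB_posSemidef fun i => comb_psd hAD (had i))

theorem Obt.letter_posDef {F : Matrix κ m ℂ} {g : m → ℝ} {K : Matrix m m ℝ} (h : Obt F g K)
    {A D : Matrix n n ℂ} (hAD : PP A D) {a d : m → ℝ} (had : ∀ i, |d i| ≤ a i) (i : m) :
    (let3 g a d A D i).PosDef := by
  unfold let3
  rw [add_assoc]
  exact ((PosDef.one (n := n) (R := ℂ)).smul (h.g_pos i)).add_posSemidef (comb_psd hAD (had i))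

theorem net_shift (g a d : m → ℝ) (A D : Matrix n n ℂ) (K : Matrix m m ℝ) (c : ℝ) :
    net (let3 (fun i => g i + c) a d A D) (K + c • (1 : Matrix m m ℝ)) =
      net (let3 g a d A D) K := by
  rw [net_let3, net_let3]
  congr 2
  ext i j
  simp only [dg, cm, Matrix.sub_apply, Matrix.map_apply, Matrix.add_apply, Matrix.smul_apply,
    diagonal_apply, Matrix.one_apply]
  by_cases h : i = j
  · simp [h]
  · simp [h]

theorem exists_sq_of_symm {K : Matrix m m ℝ} (hK : Kᵀ = K) (h0 : ∀ i j, 0 ≤ K i j) :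
    ∃ (c : ℝ) (S : Matrix m m ℝ), 0 ≤ c ∧ S * Sᵀ = K + c • (1 : Matrix m m ℝ) ∧
      ∀ i j, 0 ≤ (S * Sᵀ) i j := by
  have hH : K.IsHermitian := by
    show Kᴴ = K
    rw [conjTranspose_eq_transpose_of_trivial, hK]
  set c : ℝ := ∑ i, |hH.eigenvalues i| with hc
  have hc0 : 0 ≤ c := Finset.sum_nonneg fun i _ => abs_nonneg _
  have hP : (K + c • (1 : Matrix m m ℝ)).PosSemidef := by
    have h1 := hH.spectral_theorem
    set V : Matrix m m ℝ := (hH.eigenvectorUnitary : Matrix m m ℝ) with hV
    have hVV : V * Vᴴ = 1 := by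
      have := (Matrix.mem_unitaryGroup_iff (A := (hH.eigenvectorUnitary : Matrix m m ℝ))).1
        hH.eigenvectorUnitary.2
      simpa [star_eq_conjTranspose] using this
    have h2 : K + c • (1 : Matrix m m ℝ) = V * diagonal (fun i => hH.eigenvalues i + c) * Vᴴ := by
      have e1 : diagonal (fun i => hH.eigenvalues i + c) =
          diagonal hH.eigenvalues + c • (1 : Matrix m m ℝ) := by
        ext i j
        by_cases h : i = j
        · subst h
          simp
        · simp [h]
      rw [e1, Matrix.mul_add, Matrix.add_mul, Matrix.mul_smul, Matrix.smul_mul, Matrix.mul_one,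
        hVV]
      congr 1
    rw [h2]
    refine PosSemidef.mul_mul_conjTranspose_same ?_ V
    rw [posSemidef_diagonal_iff]
    intro i
    have h3 : |hH.eigenvalues i| ≤ c :=
      Finset.single_le_sum (f := fun i => |hH.eigenvalues i|) (fun i _ => abs_nonneg _)
        (Finset.mem_univ i)
    have h4 := neg_abs_le (hH.eigenvalues i)
    linarith
  obtain ⟨B, hB⟩ := CStarAlgebra.nonneg_iff_eq_star_mul_self.1 hP.nonneg
  refine ⟨c, Bᵀ, hc0, ?_, ?_⟩
  · rw [transpose_transpose, hB, star_eq_conjTranspose, conjTranspose_eq_transpose_of_trivial]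
  · intro i j
    have e : Bᵀ * Bᵀᵀ = K + c • (1 : Matrix m m ℝ) := by
      rw [transpose_transpose, hB, star_eq_conjTranspose, conjTranspose_eq_transpose_of_trivial]
    rw [e, Matrix.add_apply, Matrix.smul_apply, Matrix.one_apply]
    refine add_nonneg (h0 i j) ?_
    split_ifs <;> simp [hc0]

theorem Obt.exists_sq {F : Matrix κ m ℂ} {g : m → ℝ} {K : Matrix m m ℝ} (h : Obt F g K) :
    ∃ (c : ℝ) (S : Matrix m m ℝ), 0 ≤ c ∧ S * Sᵀ = K + c • (1 : Matrix m m ℝ) ∧
      ∀ i j, 0 ≤ (S * Sᵀ) i j :=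
  exists_sq_of_symm h.symm h.nonneg

end Pool.Agent.LDS
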