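import Pool.Agent.Lib_helper57.LDS.W1c

/-!
# LDS: definitions for the continuous-time limit
-/

set_option autoImplicit false
set_option linter.unusedSectionVars false

open Matrix NormedSpace
open scoped ComplexOrder

namespace Pool.Agent.LDS

variable {n m : Type*} [Fintype n] [DecidableEq n] [Fintype m] [DecidableEq m]

/-- the matrix `∑ e_ii ⊗ U_i - K ⊗ 1` on `m × n` -/
noncomputable def MU (U : m → Matrix n n ℂ) (K : Matrix m m ℝ) :
    Matrix (m × n) (m × n) ℂ :=
  Matrix.of fun p q => (if p.1 = q.1 then U p.1 p.2 q.2 else 0) -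
    (if p.2 = q.2 then (K p.1 q.1 : ℂ) else 0)

/-- discrete weighted sum over the closed words with `k + 1` letters and time step `h`;
`g` is a function of the list of letters -/
noncomputable def WS (K : Matrix m m ℝ) (h : ℝ) (k : ℕ) (g : List m → ℝ) : ℝ :=
  ∑ i, ∑ x : Fin k → m, cwt (1 + h • K) i (List.ofFn x) * g (i :: List.ofFn x)

end Pool.Agent.LDS
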