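import Mathlib

/-!
# LDS, blocks L1 and L2: a three lines lemma for sums of traces of products of exponentials

For `w x ≥ 0` and lists `L x` of hermitian matrices,
`∑ w x Tr exp (sum of L x) ≤ S` as soon as
`∑ w x ‖∏ exp ((1 + it)/2 · A)‖_2 ^ 2 ≤ S` for every real `t`.
-/

set_option autoImplicit false
set_option linter.unusedSectionVars false

open Matrix NormedSpace
open scoped Matrix.Norms.L2Operator

namespace Pool.Agent.LDS

variable {n : Type*} [Fintype n] [DecidableEq n]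

/-- squared Hilbert-Schmidt norm -/
noncomputable def hs (A : Matrix n n ℂ) : ℝ := (A * Aᴴ).trace.re

theorem hs_eq (A : Matrix n n ℂ) : hs A = ∑ i, ∑ j, ‖A i j‖ ^ 2 := by
  unfold hs
  simp only [trace, diag_apply, mul_apply, conjTranspose_apply, Complex.re_sum]
  refine Finset.sum_congr rfl fun i _ => Finset.sum_congr rfl fun j _ => ?_
  rw [RCLike.star_def, Complex.mul_conj, Complex.ofReal_re, Complex.normSq_eq_norm_sq]

theorem hs_nonneg (A : Matrix n n ℂ) : 0 ≤ hs A := by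
  rw [hs_eq]
  positivity

theorem hs_mul_unitary (A U : Matrix n n ℂ) (hU : U * Uᴴ = 1) : hs (A * U) = hs A := by
  unfold hs
  rw [conjTranspose_mul, Matrix.mul_assoc, ← Matrix.mul_assoc U, hU, Matrix.one_mul]

/-- Cauchy-Schwarz for the trace -/
theorem norm_trace_mul_le (A B : Matrix n n ℂ) :
    ‖(A * B).trace‖ ≤ √(hs A) * √(hs B) := by
  have h1 : ‖(A * B).trace‖ ≤ ∑ p : n × n, ‖A p.1 p.2‖ * ‖B p.2 p.1‖ := by
    rw [Fintype.sum_prod_type]
    simp only [trace, diag_apply, mul_apply]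
    refine (norm_sum_le _ _).trans (Finset.sum_le_sum fun i _ => ?_)
    refine (norm_sum_le _ _).trans (Finset.sum_le_sum fun j _ => ?_)
    rw [norm_mul]
  refine h1.trans ?_
  have h2 := Real.sum_mul_le_sqrt_mul_sqrt (Finset.univ : Finset (n × n))
    (fun p => ‖A p.1 p.2‖) (fun p => ‖B p.2 p.1‖)
  refine h2.trans (le_of_eq ?_)
  rw [hs_eq, hs_eq]
  congr 2
  · rw [Fintype.sum_prod_type]
  · rw [Fintype.sum_prod_type_right]

theorem exp_smul_add (a b : ℂ) (H : Matrix n n ℂ) :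
    exp ((a + b) • H) = exp (a • H) * exp (b • H) := by
  rw [add_smul]
  exact Matrix.exp_add_of_commute _ _ (((Commute.refl H).smul_left a).smul_right b)

theorem exp_smul_conjTranspose {H : Matrix n n ℂ} (hH : H.IsHermitian) (a : ℂ) :
    (exp (a • H))ᴴ = exp (star a • H) := by
  rw [← Matrix.exp_conjTranspose, conjTranspose_smul, hH.eq]

theorem exp_I_unitary {H : Matrix n n ℂ} (hH : H.IsHermitian) (a : ℂ) (ha : star a = -a) :
    exp (a • H) * (exp (a • H))ᴴ = 1 := by
  rw [exp_smul_conjTranspose hH, ha, ← exp_smul_add, add_neg_cancel, zero_smul, exp_zero]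

theorem hs_exp {H : Matrix n n ℂ} (hH : H.IsHermitian) (a : ℂ) :
    hs (exp (a • H)) = (exp ((2 * a.re : ℂ) • H)).trace.re := by
  unfold hs
  rw [exp_smul_conjTranspose hH, ← exp_smul_add]
  congr 5
  apply Complex.ext <;> simp
  ring

theorem unitary_list_prod (L : List (Matrix n n ℂ)) (hL : ∀ A ∈ L, A * Aᴴ = 1) :
    L.prod * (L.prod)ᴴ = 1 := by
  induction L with
  | nil => simp
  | cons A L ih =>
    rw [List.prod_cons, conjTranspose_mul, Matrix.mul_assoc, ← Matrix.mul_assoc L.prod,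
      ih (fun B hB => hL B (List.mem_cons_of_mem _ hB)), Matrix.one_mul]
    exact hL A List.mem_cons_self

/-- the product of the exponentials of `z • A`, `A` in the list `L` -/
noncomputable def pexp (L : List (Matrix n n ℂ)) (z : ℂ) : Matrix n n ℂ :=
  (L.map fun A => exp (z • A)).prod

theorem pexp_nil (z : ℂ) : pexp ([] : List (Matrix n n ℂ)) z = 1 := rfl

theorem pexp_cons (A : Matrix n n ℂ) (L : List (Matrix n n ℂ)) (z : ℂ) :
    pexp (A :: L) z = exp (z • A) * pexp L z := by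
  simp [pexp]

theorem pexp_zero (L : List (Matrix n n ℂ)) : pexp L 0 = 1 := by
  induction L with
  | nil => rfl
  | cons A L ih => rw [pexp_cons, ih, zero_smul, exp_zero, one_mul]

theorem pexp_differentiable (L : List (Matrix n n ℂ)) : Differentiable ℂ (pexp L) := by
  induction L with
  | nil =>
    have : pexp ([] : List (Matrix n n ℂ)) = fun _ => 1 := rfl
    rw [this]
    exact differentiable_const _
  | cons A L ih =>
    have : pexp (A :: L) = fun z => exp (z • A) * pexp L z := funext fun z => pexp_cons A L z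
    rw [this]
    exact (fun z => (hasDerivAt_exp_smul_const A z).differentiableAt.mul (ih z))

theorem pexp_hasDerivAt_zero (L : List (Matrix n n ℂ)) : HasDerivAt (pexp L) L.sum 0 := by
  induction L with
  | nil =>
    have : pexp ([] : List (Matrix n n ℂ)) = fun _ => 1 := rfl
    rw [this]
    simpa using hasDerivAt_const (0 : ℂ) (1 : Matrix n n ℂ)
  | cons A L ih =>
    have : pexp (A :: L) = fun z => exp (z • A) * pexp L z := funext fun z => pexp_cons A L z
    rw [this]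
    have h := (hasDerivAt_exp_smul_const A (0 : ℂ)).mul ih
    have e : exp ((0 : ℂ) • A) * A * pexp L 0 + exp ((0 : ℂ) • A) * L.sum = (A :: L).sum := by
      rw [pexp_zero, zero_smul, exp_zero, one_mul, mul_one, one_mul, List.sum_cons]
    rw [e] at h
    exact h

theorem pexp_unitary (L : List (Matrix n n ℂ)) (hL : ∀ A ∈ L, A.IsHermitian) (z : ℂ)
    (hz : star z = -z) : pexp L z * (pexp L z)ᴴ = 1 := by
  refine unitary_list_prod _ fun B hB => ?_
  obtain ⟨A, hA, rfl⟩ := List.mem_map.1 hB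
  exact exp_I_unitary (hL A hA) z hz

theorem norm_le_of_unitary (U : Matrix n n ℂ) (hU : U * Uᴴ = 1) :
    ‖U‖ ≤ ‖(1 : Matrix n n ℂ)‖ + 1 := by
  have h : ‖U * star U‖ = ‖U‖ * ‖U‖ := CStarRing.norm_self_mul_star
  have h2 : U * star U = 1 := hU
  rw [h2] at h
  nlinarith [norm_nonneg U, norm_nonneg (1 : Matrix n n ℂ)]

theorem bdd_exp {A : Matrix n n ℂ} (hA : A.IsHermitian) :
    ∃ C : ℝ, ∀ z : ℂ, 0 ≤ z.re → z.re ≤ 1 → ‖exp (z • A)‖ ≤ C := by
  have hc : Continuous fun a : ℝ => ‖exp ((a : ℂ) • A)‖ := by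
    have h1 : Differentiable ℂ (fun z : ℂ => exp (z • A)) :=
      fun z => (hasDerivAt_exp_smul_const A z).differentiableAt
    exact (h1.continuous.comp Complex.continuous_ofReal).norm
  obtain ⟨C, hC⟩ := (isCompact_Icc (a := (0 : ℝ)) (b := 1)).bddAbove_image hc.continuousOn
  refine ⟨C * (‖(1 : Matrix n n ℂ)‖ + 1), fun z h0 h1 => ?_⟩
  have e : z • A = ((z.re : ℂ) + (z.im * Complex.I)) • A := by rw [Complex.re_add_im]
  rw [e, exp_smul_add]
  have hz : ‖exp ((z.re : ℂ) • A)‖ ≤ C := hC ⟨z.re, ⟨h0, h1⟩, rfl⟩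
  have hu : exp ((z.im * Complex.I) • A) * (exp ((z.im * Complex.I) • A))ᴴ = 1 :=
    exp_I_unitary hA _ (by simp)
  exact (norm_mul_le _ _).trans (mul_le_mul hz (norm_le_of_unitary _ hu) (norm_nonneg _)
    ((norm_nonneg _).trans hz))

theorem bdd_pexp (L : List (Matrix n n ℂ)) (hL : ∀ A ∈ L, A.IsHermitian) :
    ∃ C : ℝ, ∀ z : ℂ, 0 ≤ z.re → z.re ≤ 1 → ‖pexp L z‖ ≤ C := by
  induction L with
  | nil => exact ⟨‖(1 : Matrix n n ℂ)‖, fun z _ _ => le_rfl⟩
  | cons A L ih =>
    obtain ⟨C, hC⟩ := ih fun B hB => hL B (List.mem_cons_of_mem _ hB)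
    obtain ⟨D, hD⟩ := bdd_exp (hL A List.mem_cons_self)
    refine ⟨D * C, fun z h0 h1 => ?_⟩
    rw [pexp_cons]
    exact (norm_mul_le _ _).trans (mul_le_mul (hD z h0 h1) (hC z h0 h1) (norm_nonneg _)
      ((norm_nonneg _).trans (hD z h0 h1)))

/-- the function to which the three lines theorem is applied -/
noncomputable def G (L : List (Matrix n n ℂ)) (z : ℂ) : ℂ :=
  (exp ((1 - z / 2) • L.sum) * pexp L (z / 2)).trace

theorem sum_hermitian (L : List (Matrix n n ℂ)) (hL : ∀ A ∈ L, A.IsHermitian) :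
    L.sum.IsHermitian := by
  induction L with
  | nil => simp
  | cons A L ih =>
    rw [List.sum_cons]
    exact (hL A List.mem_cons_self).add (ih fun B hB => hL B (List.mem_cons_of_mem _ hB))

theorem G_zero (L : List (Matrix n n ℂ)) : G L 0 = (exp L.sum).trace := by
  simp [G, pexp_zero]

theorem traceCLM : ∃ T : Matrix n n ℂ →L[ℂ] ℂ, ∀ A, T A = A.trace :=
  ⟨LinearMap.toContinuousLinearMap (Matrix.traceLinearMap n ℂ ℂ), fun _ => rfl⟩

theorem G_hasDerivAt (L : List (Matrix n n ℂ)) : HasDerivAt (G L) 0 0 := by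
  obtain ⟨T, hT⟩ := traceCLM (n := n)
  have h1 : HasDerivAt (fun z : ℂ => exp ((1 - z / 2) • L.sum))
      ((-(1 / 2) : ℂ) • (exp ((1 - 0 / 2 : ℂ) • L.sum) * L.sum)) 0 := by
    have ha : HasDerivAt (fun z : ℂ => 1 - z / 2) (-(1 / 2)) 0 := by
      simpa using (((hasDerivAt_id (0 : ℂ)).div_const 2).const_sub 1)
    exact HasDerivAt.scomp (0 : ℂ) (hasDerivAt_exp_smul_const L.sum (1 - 0 / 2 : ℂ)) ha
  have h2 : HasDerivAt (fun z : ℂ => pexp L (z / 2)) ((1 / 2 : ℂ) • L.sum) 0 := by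
    have ha : HasDerivAt (fun z : ℂ => z / 2) (1 / 2) 0 := by
      simpa using ((hasDerivAt_id (0 : ℂ)).div_const 2)
    have hp : HasDerivAt (pexp L) L.sum ((0 : ℂ) / 2) := by
      rw [zero_div]
      exact pexp_hasDerivAt_zero L
    exact HasDerivAt.scomp (0 : ℂ) hp ha
  have h3 := h1.mul h2
  have e : (-(1 / 2) : ℂ) • (exp ((1 - 0 / 2 : ℂ) • L.sum) * L.sum) * pexp L (0 / 2) +
      exp ((1 - 0 / 2 : ℂ) • L.sum) * ((1 / 2 : ℂ) • L.sum) = 0 := by
    rw [zero_div, pexp_zero, mul_one, sub_zero, one_smul, Matrix.mul_smul]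
    rw [← add_smul]
    norm_num
  rw [e] at h3
  have h4 := T.hasFDerivAt.comp_hasDerivAt (0 : ℂ) h3
  rw [map_zero] at h4
  refine h4.congr_of_eventuallyEq (Filter.Eventually.of_forall fun z => ?_)
  simp [G, hT]

theorem G_differentiable (L : List (Matrix n n ℂ)) : Differentiable ℂ (G L) := by
  obtain ⟨T, hT⟩ := traceCLM (n := n)
  have h1 : Differentiable ℂ (fun z : ℂ => exp ((1 - z / 2) • L.sum)) := by
    intro z
    have ha : HasDerivAt (fun z : ℂ => 1 - z / 2) (-(1 / 2)) z := by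
      simpa using (((hasDerivAt_id z).div_const 2).const_sub 1)
    exact (HasDerivAt.scomp z (hasDerivAt_exp_smul_const L.sum (1 - z / 2)) ha).differentiableAt
  have h2 : Differentiable ℂ (fun z : ℂ => pexp L (z / 2)) :=
    (pexp_differentiable L).comp (differentiable_id.div_const 2)
  have h3 : Differentiable ℂ (fun z : ℂ => T (exp ((1 - z / 2) • L.sum) * pexp L (z / 2))) :=
    fun z => T.differentiableAt.comp z ((h1 z).mul (h2 z))
  have e : G L = fun z : ℂ => T (exp ((1 - z / 2) • L.sum) * pexp L (z / 2)) := by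
    funext z
    simp [G, hT]
  rw [e]
  exact h3

theorem G_bdd (L : List (Matrix n n ℂ)) (hL : ∀ A ∈ L, A.IsHermitian) :
    ∃ C : ℝ, ∀ z : ℂ, 0 ≤ z.re → z.re ≤ 1 → ‖G L z‖ ≤ C := by
  obtain ⟨T, hT⟩ := traceCLM (n := n)
  obtain ⟨C, hC⟩ := bdd_exp (sum_hermitian L hL)
  obtain ⟨D, hD⟩ := bdd_pexp L hL
  refine ⟨‖T‖ * (C * D), fun z h0 h1 => ?_⟩
  unfold G
  rw [← hT]
  refine (T.le_opNorm _).trans (mul_le_mul_of_nonneg_left ?_ (norm_nonneg _))
  have r1 : (1 - z / 2 : ℂ).re = 1 - z.re / 2 := by simp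
  have r2 : (z / 2 : ℂ).re = z.re / 2 := by simp
  have a1 := hC (1 - z / 2) (by rw [r1]; linarith) (by rw [r1]; linarith)
  have a2 := hD (z / 2) (by rw [r2]; linarith) (by rw [r2]; linarith)
  exact (norm_mul_le _ _).trans (mul_le_mul a1 a2 (norm_nonneg _) ((norm_nonneg _).trans a1))

theorem exp_trace_eq_hs {H : Matrix n n ℂ} (hH : H.IsHermitian) :
    (exp H).trace.re = hs (exp ((1 / 2 : ℂ) • H)) := by
  rw [hs_exp hH]
  congr 3
  norm_num

/-- left line -/
theorem G_left (L : List (Matrix n n ℂ)) (hL : ∀ A ∈ L, A.IsHermitian) (z : ℂ) (hz : z.re = 0) :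
    ‖G L z‖ ≤ (exp L.sum).trace.re := by
  have hH := sum_hermitian L hL
  set H := L.sum with hHdef
  have hzs : star z = -z := by
    apply Complex.ext <;> simp [hz]
  have hU1 : exp ((-(z / 2)) • H) * (exp ((-(z / 2)) • H))ᴴ = 1 :=
    exp_I_unitary hH _ (by rw [star_neg, star_div₀, hzs]; simp [neg_div])
  have hU2 : pexp L (z / 2) * (pexp L (z / 2))ᴴ = 1 :=
    pexp_unitary L hL _ (by rw [star_div₀, hzs]; simp [neg_div])
  have e1 : exp ((1 - z / 2) • H) = exp ((1 / 2 : ℂ) • H) *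
      (exp ((1 / 2 : ℂ) • H) * exp ((-(z / 2)) • H)) := by
    rw [← exp_smul_add, ← exp_smul_add]
    congr 2
    ring
  have e2 : G L z = (exp ((1 / 2 : ℂ) • H) *
      (exp ((1 / 2 : ℂ) • H) * exp ((-(z / 2)) • H) * pexp L (z / 2))).trace := by
    unfold G
    rw [← hHdef, e1, Matrix.mul_assoc (exp ((1 / 2 : ℂ) • H))]
  rw [e2, exp_trace_eq_hs hH]
  refine (norm_trace_mul_le _ _).trans (le_of_eq ?_)
  rw [hs_mul_unitary _ _ hU2, hs_mul_unitary _ _ hU1, Real.mul_self_sqrt (hs_nonneg _)]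

/-- right line -/
theorem G_right (L : List (Matrix n n ℂ)) (hL : ∀ A ∈ L, A.IsHermitian) (z : ℂ) (hz : z.re = 1) :
    ‖G L z‖ ≤ √((exp L.sum).trace.re) * √(hs (pexp L (z / 2))) := by
  have hH := sum_hermitian L hL
  unfold G
  refine (norm_trace_mul_le _ _).trans (le_of_eq ?_)
  rw [hs_exp hH]
  congr 6
  have : (2 * ((1 - z / 2 : ℂ).re : ℂ)) = 1 := by
    have r1 : (1 - z / 2 : ℂ).re = 1 / 2 := by
      simp [hz]
      norm_num
    rw [r1]
    norm_num
  rw [this, one_smul]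

theorem trace_exp_nonneg {H : Matrix n n ℂ} (hH : H.IsHermitian) : 0 ≤ (exp H).trace.re := by
  rw [exp_trace_eq_hs hH]
  exact hs_nonneg _

/-- **Lemma 1** (three lines). -/
theorem three_lines {X : Type*} [Fintype X] (w : X → ℝ) (hw : ∀ x, 0 ≤ w x)
    (L : X → List (Matrix n n ℂ)) (hL : ∀ x, ∀ A ∈ L x, A.IsHermitian) (S : ℝ)
    (hS : ∀ t : ℝ, ∑ x, w x * hs (pexp (L x) ((1 + t * Complex.I) / 2)) ≤ S) :
    ∑ x, w x * (exp (L x).sum).trace.re ≤ S := by
  classical
  set T : ℝ := ∑ x, w x * (exp (L x).sum).trace.re with hT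
  have hS0 : 0 ≤ S := (Finset.sum_nonneg fun x _ => mul_nonneg (hw x) (hs_nonneg _)).trans (hS 0)
  by_contra hlt
  push Not at hlt
  have hT0 : 0 < T := hS0.trans_lt hlt
  set F : ℂ → ℂ := fun z => ∑ x, (w x : ℂ) * G (L x) z with hF
  have hF0 : (F 0).re = T := by
    simp only [hF, G_zero, Complex.re_sum, Complex.re_ofReal_mul, hT]
  have hFd : Differentiable ℂ F := by
    intro z
    refine DifferentiableAt.fun_sum fun x _ => ?_
    exact (G_differentiable (L x) z).const_mul _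
  have hF' : HasDerivAt F 0 0 := by
    have h := HasDerivAt.fun_sum (u := (Finset.univ : Finset X))
      (A := fun x z => (w x : ℂ) * G (L x) z) (A' := fun x => (w x : ℂ) * 0) (x := (0 : ℂ))
      fun x _ => (G_hasDerivAt (L x)).const_mul _
    simpa using h
  -- bounds
  have hb : BddAbove ((norm ∘ F) '' Complex.HadamardThreeLines.verticalClosedStrip 0 1) := by
    choose C hC using fun x => G_bdd (L x) (hL x)
    refine ⟨∑ x, w x * C x, ?_⟩
    rintro _ ⟨z, hz, rfl⟩
    simp only [Function.comp, hF]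
    refine (norm_sum_le _ _).trans (Finset.sum_le_sum fun x _ => ?_)
    rw [norm_mul, Complex.norm_real, Real.norm_of_nonneg (hw x)]
    exact mul_le_mul_of_nonneg_left (hC x z hz.1 hz.2) (hw x)
  have hl : ∀ z ∈ Complex.re ⁻¹' {(0 : ℝ)}, ‖F z‖ ≤ T := by
    intro z hz
    refine (norm_sum_le _ _).trans (Finset.sum_le_sum fun x _ => ?_)
    rw [norm_mul, Complex.norm_real, Real.norm_of_nonneg (hw x)]
    exact mul_le_mul_of_nonneg_left (G_left _ (hL x) z hz) (hw x)
  have hr : ∀ z ∈ Complex.re ⁻¹' {(1 : ℝ)}, ‖F z‖ ≤ √T * √S := by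
    intro z hz
    have hz1 : z.re = 1 := hz
    have h1 : ‖F z‖ ≤ ∑ x, √(w x * (exp (L x).sum).trace.re) *
        √(w x * hs (pexp (L x) (z / 2))) := by
      refine (norm_sum_le _ _).trans (Finset.sum_le_sum fun x _ => ?_)
      rw [norm_mul, Complex.norm_real, Real.norm_of_nonneg (hw x)]
      refine (mul_le_mul_of_nonneg_left (G_right _ (hL x) z hz1) (hw x)).trans (le_of_eq ?_)
      rw [Real.sqrt_mul (hw x), Real.sqrt_mul (hw x)]
      have e := Real.mul_self_sqrt (hw x)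
      calc w x * (√(exp (L x).sum).trace.re * √(hs (pexp (L x) (z / 2))))
          = (√(w x) * √(w x)) * (√(exp (L x).sum).trace.re * √(hs (pexp (L x) (z / 2)))) := by
            rw [e]
        _ = _ := by ring
    refine h1.trans ((Real.sum_sqrt_mul_sqrt_le Finset.univ
      (fun x => mul_nonneg (hw x) (trace_exp_nonneg (sum_hermitian _ (hL x))))
      (fun x => mul_nonneg (hw x) (hs_nonneg _))).trans ?_)
    refine mul_le_mul_of_nonneg_left (Real.sqrt_le_sqrt ?_) (Real.sqrt_nonneg _)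
    have hz2 : z = 1 + z.im * Complex.I := by
      conv_lhs => rw [← Complex.re_add_im z, hz1]
      simp
    rw [hz2]
    exact hS z.im
  -- conclusion of the three lines theorem
  have key : ∀ s : ℝ, 0 ≤ s → s ≤ 1 → (F s).re ≤ T - s * (T - √T * √S) := by
    intro s h0 h1
    have h := Complex.HadamardThreeLines.norm_le_interp_of_mem_verticalClosedStrip₀₁' F
      (z := (s : ℂ)) (a := T) (b := √T * √S) ⟨by simpa using h0, by simpa using h1⟩
      hFd.diffContOnCl hb hl hr
    rw [Complex.ofReal_re] at h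
    have h2 := Real.geom_mean_le_arith_mean2_weighted (w₁ := 1 - s) (w₂ := s) (p₁ := T)
      (p₂ := √T * √S) (by linarith) h0 hT0.le (by positivity) (by ring)
    have h3 : (F s).re ≤ ‖F s‖ := Complex.re_le_norm _
    linarith
  have hgap : 0 < T - √T * √S := by
    have : √S < √T := Real.sqrt_lt_sqrt hS0 hlt
    have h4 : √T * √S < √T * √T :=
      mul_lt_mul_of_pos_left this (Real.sqrt_pos.2 hT0)
    rw [Real.mul_self_sqrt hT0.le] at h4
    linarith
  have hre : HasDerivAt (fun s : ℝ => (F s).re) 0 0 := by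
    have h := (show HasDerivAt F 0 ((0 : ℝ) : ℂ) by simpa using hF').real_of_complex
    simpa using h
  have hslope := hre.tendsto_slope_zero_right
  have hev : ∀ᶠ s : ℝ in nhdsWithin 0 (Set.Ioi 0),
      s⁻¹ • ((F ((0 + s : ℝ) : ℂ)).re - (F ((0 : ℝ) : ℂ)).re) ≤ -(T - √T * √S) := by
    filter_upwards [Ioc_mem_nhdsGT (show (0 : ℝ) < 1 by norm_num)] with s hs
    have hk := key s hs.1.le hs.2
    rw [zero_add, Complex.ofReal_zero, hF0, smul_eq_mul]
    have : (F s).re - T ≤ s * (-(T - √T * √S)) := by linarith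
    calc s⁻¹ * ((F s).re - T) ≤ s⁻¹ * (s * (-(T - √T * √S))) :=
          mul_le_mul_of_nonneg_left this (inv_nonneg.2 hs.1.le)
      _ = -(T - √T * √S) := by
          rw [← mul_assoc, inv_mul_cancel₀ hs.1.ne', one_mul]
  have := le_of_tendsto hslope hev
  linarith

end Pool.Agent.LDS
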