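import Pool.Agent.Lib_helper57.LDS.W2
import Pool.Agent.Lib_helper64.LDS.Defs

/-!
# LDS, block LOGW: the word sums of `Tr exp (-Σ log U)` are below `Σ log det U_i - log det M`
-/

set_option autoImplicit false
set_option linter.unusedSectionVars false

open Matrix
open scoped ComplexOrder Kronecker
open Pool.Agent.Lib_helper98.Renyi Pool.Agent.Lib_helper59.Lieb Pool.Agent.Lib_helper59.RCT

namespace Pool.Agent.LDS

section Pure

variable {n m : Type*} [Fintype n] [DecidableEq n] [Fintype m] [DecidableEq m]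

theorem pwf_smul (Q : Matrix m m ℝ) (c : ℝ) (f : m → ℝ) (i : m) (x : List m) :
    pwf (c • Q) (fun l => c * f l) i x = c ^ (x.length + 1) * pwf Q f i x := by
  induction x generalizing i with
  | nil => simp [pwf]
  | cons l x ih =>
    simp only [pwf]
    rw [ih l, Matrix.smul_apply, smul_eq_mul, List.length_cons, pow_succ c (x.length + 1)]
    ring

theorem cwt_smul (Q : Matrix m m ℝ) (c : ℝ) (i : m) (x : List m) :
    cwt (c • Q) i x = c ^ (x.length + 1) * cwt Q i x := by
  unfold cwt
  have h := pwf_smul Q c (fun l => Q l i) i x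
  simpa [Matrix.smul_apply, smul_eq_mul] using h

theorem det_EB (U : m → Matrix n n ℂ) : (EB U).det = ∏ i, (U i).det := by
  rw [← det_blockDiagonal]
  have : EB U = (blockDiagonal U).submatrix (Equiv.prodComm m n) (Equiv.prodComm m n) := by
    ext p q
    obtain ⟨i, k⟩ := p
    obtain ⟨i', k'⟩ := q
    rw [submatrix_apply, blockDiagonal_apply]
    rfl
  rw [this, det_submatrix_equiv_self]

/-- comparison of the two generating functions -/
theorem log_compare {ι : Type*} [Fintype ι] (l : ι → ℝ) (hl : ∀ y, 0 < 1 - l y) (c : ℕ → ℝ)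
    (N : ℕ) (h : ∀ t : ℝ, 0 < t → t < 1 → ∑ k ∈ Finset.range N, t ^ (k + 1) * c k ≤
      ∑ y, ((1 - t * l y)⁻¹ - 1)) :
    ∑ k ∈ Finset.range N, c k / (k + 1) ≤ -∑ y, Real.log (1 - l y) := by
  have hpos : ∀ t : ℝ, 0 ≤ t → t ≤ 1 → ∀ y, 0 < 1 - t * l y := by
    intro t h0 h1 y
    have h2 := hl y
    by_cases h3 : l y ≤ 0
    · nlinarith
    · push Not at h3
      nlinarith
  set f : ℝ → ℝ := fun t => -(∑ y, Real.log (1 - t * l y)) -
    ∑ k ∈ Finset.range N, t ^ (k + 1) * (c k / (k + 1)) with hf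
  have hd : ∀ t : ℝ, 0 ≤ t → t ≤ 1 → HasDerivAt f
      (-(∑ y, (-(l y)) / (1 - t * l y)) - ∑ k ∈ Finset.range N, t ^ k * c k) t := by
    intro t h0 h1
    refine HasDerivAt.sub (HasDerivAt.neg (HasDerivAt.fun_sum fun y _ => ?_))
      (HasDerivAt.fun_sum fun k _ => ?_)
    · have h2 : HasDerivAt (fun t : ℝ => 1 - t * l y) (-(l y)) t := by
        have := ((hasDerivAt_id t).mul_const (l y)).const_sub 1
        simpa using this
      exact h2.log (hpos t h0 h1 y).ne'
    · have h2 : HasDerivAt (fun t : ℝ => t ^ (k + 1)) (((k + 1 : ℕ) : ℝ) * t ^ k) t := by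
        simpa using hasDerivAt_pow (k + 1) t
      have h3 := h2.mul_const (c k / (k + 1))
      refine h3.congr_deriv ?_
      have : ((k : ℝ) + 1) ≠ 0 := by positivity
      push_cast
      field_simp
  have hmono : MonotoneOn f (Set.Icc 0 1) := by
    refine monotoneOn_of_deriv_nonneg (convex_Icc 0 1) ?_ ?_ ?_
    · exact fun t ht => (hd t ht.1 ht.2).continuousAt.continuousWithinAt
    · intro t ht
      rw [interior_Icc] at ht
      exact (hd t ht.1.le ht.2.le).differentiableAt.differentiableWithinAt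
    · intro t ht
      rw [interior_Icc] at ht
      rw [(hd t ht.1.le ht.2.le).deriv]
      have h1 := h t ht.1 ht.2
      have h2 : ∑ k ∈ Finset.range N, t ^ (k + 1) * c k =
          t * ∑ k ∈ Finset.range N, t ^ k * c k := by
        rw [Finset.mul_sum]
        exact Finset.sum_congr rfl fun k _ => by ring
      have h3 : ∑ y, ((1 - t * l y)⁻¹ - 1) = t * -(∑ y, (-(l y)) / (1 - t * l y)) := by
        rw [← Finset.sum_neg_distrib, Finset.mul_sum]
        refine Finset.sum_congr rfl fun y _ => ?_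
        have := (hpos t ht.1.le ht.2.le y).ne'
        field_simp
        ring
      rw [h2, h3] at h1
      have h4 := le_of_mul_le_mul_left h1 ht.1
      linarith
  have h01 := hmono (Set.left_mem_Icc.2 zero_le_one) (Set.right_mem_Icc.2 zero_le_one) zero_le_one
  simp only [hf, zero_mul, sub_zero, Real.log_one, Finset.sum_const_zero, neg_zero, one_pow,
    one_mul, ne_eq, Nat.add_eq_zero_iff, one_ne_zero, and_false, not_false_eq_true, zero_pow] at h01
  linarith

end Pure

section Main

variable {n m : Type} [Fintype n] [DecidableEq n] [Fintype m] [DecidableEq m]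

theorem net_eq_MU (U : m → Matrix n n ℂ) (Q : Matrix m m ℝ) : net U Q = MU U Q := by
  ext p q
  simp only [net, bdm, MU, cm, Matrix.sub_apply, Matrix.of_apply, kroneckerMap_apply,
    Matrix.map_apply, Matrix.one_apply]
  by_cases h : p.2 = q.2 <;> simp [h]

theorem exp_neg_log {U : Matrix n n ℂ} (hU : U.PosDef) :
    (cfc Real.log U).IsHermitian ∧ U * NormedSpace.exp (-(cfc Real.log U)) = 1 ∧
      (NormedSpace.exp (-(cfc Real.log U))).IsHermitian := by
  obtain ⟨V, c, hV, hV', hc, rfl⟩ := exists_spectral_pos hU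
  have h1 : cfc Real.log (V * dg c * Vᴴ) = V * dg (fun i => Real.log (c i)) * Vᴴ := by
    rw [dg, cfc_conj_diagonal _ V hV]
  have hher : (V * dg (fun i => Real.log (c i)) * Vᴴ).IsHermitian := by
    rw [dg]
    exact conj_diagonal_isHermitian V _
  rw [h1]
  have h2 : -(V * dg (fun i => Real.log (c i)) * Vᴴ) =
      V * dg (fun i => -Real.log (c i)) * Vᴴ := by
    have : dg (fun i => -Real.log (c i)) = -dg (fun i => Real.log (c i)) := by
      rw [dg, dg]
      ext i j
      by_cases h : i = j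
      · subst h
        simp
      · simp [h]
    rw [this, Matrix.mul_neg, Matrix.neg_mul]
  have h3 : NormedSpace.exp (V * dg (fun i => -Real.log (c i)) * Vᴴ) =
      V * dg (fun i => (c i)⁻¹) * Vᴴ := by
    rw [← cfc_exp_eq (by rw [dg]; exact conj_diagonal_isHermitian V _), dg,
      cfc_conj_diagonal _ V hV]
    congr 2
    rw [dg]
    congr 1
    funext i
    rw [Real.exp_neg, Real.exp_log (hc i)]
  rw [h2, h3]
  refine ⟨hher, ?_, ?_⟩
  · calc V * dg c * Vᴴ * (V * dg (fun i => (c i)⁻¹) * Vᴴ)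
        = V * dg c * (Vᴴ * V) * dg (fun i => (c i)⁻¹) * Vᴴ := by
          simp only [Matrix.mul_assoc]
      _ = V * (dg c * dg (fun i => (c i)⁻¹)) * Vᴴ := by
          rw [hV, Matrix.mul_one]
          simp only [Matrix.mul_assoc]
      _ = 1 := by
          rw [dg, dg, diagonal_mul_diagonal]
          have : (fun i => ((c i : ℝ) : ℂ) * (((c i)⁻¹ : ℝ) : ℂ)) = fun _ => (1 : ℂ) := by
            funext i
            have := (hc i).ne'
            rw [← Complex.ofReal_mul, mul_inv_cancel₀ this, Complex.ofReal_one]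
          rw [this, diagonal_one, Matrix.mul_one, hV']
  · rw [dg]
    exact conj_diagonal_isHermitian V _

/-- **LOGW** -/
theorem logw (U : m → Matrix n n ℂ) (hU : ∀ i, (U i).PosDef) (S : Matrix m m ℝ)
    (hQ : ∀ i j, 0 ≤ (S * Sᵀ) i j) (hM : (net U (S * Sᵀ)).PosDef) (N : ℕ) :
    ∑ k ∈ Finset.range N, ∑ i, ∑ x : Fin k → m, cwt (S * Sᵀ) i (List.ofFn x) / (k + 1) *
      rtr (cfc Real.exp (-(lg U i + ((List.ofFn x).map (lg U)).sum))) ≤
      ∑ i, Ld (U i) - Ld (net U (S * Sᵀ)) := by
  have hM' : (EB U - SB (n := n) S * (SB S)ᴴ).PosDef := by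
    rw [SB_conjTranspose, SB_mul, ← MU_eq, ← net_eq_MU]
    exact hM
  have hlg : ∀ i, (lg U i).IsHermitian := fun i => (exp_neg_log (hU i)).1
  set E : m → Matrix n n ℂ := fun i => NormedSpace.exp (-(lg U i)) with hE
  have hEU : EB U * EB E = 1 := by
    rw [EB_mul]
    have : (fun i => U i * E i) = fun _ => 1 := by
      funext i
      exact (exp_neg_log (hU i)).2.1
    rw [this, EB_one]
  have hEh : (EB E).IsHermitian := by
    show (EB E)ᴴ = EB E
    rw [EB_conjTranspose]
    congr 1
    funext i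
    exact (exp_neg_log (hU i)).2.2
  -- the scaled operators
  have hpos : ∀ t : ℝ, 0 < t → t ≤ 1 → (1 - (t : ℂ) • ellM S E).PosDef ∧
      ellM (Real.sqrt t • S) E = (t : ℂ) • ellM S E ∧
      (Real.sqrt t • S) * (Real.sqrt t • S)ᵀ = t • (S * Sᵀ) := by
    intro t h0 h1
    have hs : Real.sqrt t * Real.sqrt t = t := Real.mul_self_sqrt h0.le
    have e1 : ellM (Real.sqrt t • S) E = (t : ℂ) • ellM S E := by
      ext p q
      simp only [ellM, Matrix.of_apply, Matrix.smul_apply, smul_eq_mul, Complex.ofReal_mul]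
      rw [Finset.mul_sum]
      refine Finset.sum_congr rfl fun l _ => ?_
      have : (t : ℂ) = (Real.sqrt t : ℂ) * (Real.sqrt t : ℂ) := by
        rw [← Complex.ofReal_mul, hs]
      rw [this]
      ring
    have e2 : (Real.sqrt t • S) * (Real.sqrt t • S)ᵀ = t • (S * Sᵀ) := by
      rw [transpose_smul, Matrix.smul_mul, Matrix.mul_smul, smul_smul, hs]
    refine ⟨?_, e1, e2⟩
    rw [← e1, ellM_eq]
    refine one_sub_posDef hEh hEU ?_
    rw [SB_conjTranspose, SB_mul, e2, SB_smul]
    rw [SB_conjTranspose, SB_mul] at hM'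
    have e3 : EB U - (t : ℂ) • SB (n := n) (S * Sᵀ) =
        t • (EB U - SB (n := n) (S * Sᵀ)) + (1 - t) • EB U := by
      rw [smul_sub, sub_smul, one_smul]
      have : (t : ℂ) • SB (n := n) (S * Sᵀ) = t • SB (n := n) (S * Sᵀ) := rfl
      rw [this]
      abel
    rw [e3]
    refine (hM'.smul h0).add_posSemidef ?_
    exact (EB_posSemidef fun i => (hU i).posSemidef).smul (by linarith)
  -- spectral decomposition of `ℓ`
  have hl0 := (hpos 1 one_pos le_rfl).1
  rw [Complex.ofReal_one, one_smul] at hl0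
  have hlh : (ellM S E).IsHermitian := by
    have h := isHermitian_one.sub hl0.1
    have e : ellM S E = 1 - (1 - ellM S E) := by abel
    rw [e]
    exact h
  obtain ⟨V, l, hV, hV', hl⟩ := exists_spectral hlh
  have hdiag : ∀ t : ℝ, 1 - (t : ℂ) • ellM S E = V * dg (fun y => 1 - t * l y) * Vᴴ := by
    intro t
    have e1 : dg (fun y => 1 - t * l y) = 1 - (t : ℂ) • dg l := by
      rw [dg, dg]
      ext i j
      by_cases h : i = j
      · subst h
        simp
      · simp [h]
    rw [e1, Matrix.mul_sub, Matrix.sub_mul, Matrix.mul_one, hV', Matrix.mul_smul,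
      Matrix.smul_mul, hl, dg]
  have hlpos : ∀ y, 0 < 1 - l y := by
    intro y
    have h1 : (dg fun y => 1 - 1 * l y).PosDef := by
      have h2 := hdiag 1
      rw [Complex.ofReal_one, one_smul] at h2
      have h3 : dg (fun y => 1 - 1 * l y) = Vᴴ * (1 - ellM S E) * V := by
        rw [h2]
        calc dg (fun y => 1 - 1 * l y) = (Vᴴ * V) * dg (fun y => 1 - 1 * l y) * (Vᴴ * V) := by
              rw [hV, Matrix.one_mul, Matrix.mul_one]
          _ = _ := by simp only [Matrix.mul_assoc]
      rw [h3]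
      refine hl0.conjTranspose_mul_mul_same ?_
      intro a b hab
      have h4 : ∀ z, Vᴴ *ᵥ (V *ᵥ z) = z := fun z => by
        rw [mulVec_mulVec, hV, one_mulVec]
      have h5 := congrArg (fun z => Vᴴ *ᵥ z) hab
      simpa [h4] using h5
    rw [dg] at h1
    have h2 := (posDef_diagonal_iff.1 h1) y
    have h3 : (0 : ℂ) < ((1 - 1 * l y : ℝ) : ℂ) := h2
    rw [Complex.zero_lt_real] at h3
    linarith
  -- the discrete inequality at `t`
  have hdisc : ∀ t : ℝ, 0 < t → t < 1 →
      ∑ k ∈ Finset.range N, t ^ (k + 1) * (∑ i, ∑ x : Fin k → m, cwt (S * Sᵀ) i (List.ofFn x) *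
        (NormedSpace.exp (-(lg U i + ((List.ofFn x).map (lg U)).sum))).trace.re) ≤
        ∑ y, ((1 - t * l y)⁻¹ - 1) := by
    intro t h0 h1
    obtain ⟨g1, g2, g3⟩ := hpos t h0 h1.le
    have hq : ∀ i j, 0 ≤ ((Real.sqrt t • S) * (Real.sqrt t • S)ᵀ) i j := by
      intro i j
      rw [g3, Matrix.smul_apply, smul_eq_mul]
      exact mul_nonneg h0.le (hQ i j)
    have hd := disc (lg U) hlg (Real.sqrt t • S) hq (by rw [g2]; exact g1) N
    rw [g2, g3] at hd
    have e1 : ∀ k ∈ Finset.range N, ∑ i, ∑ x : Fin k → m, cwt (t • (S * Sᵀ)) i (List.ofFn x) *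
        (NormedSpace.exp (-(lg U i + ((List.ofFn x).map (lg U)).sum))).trace.re =
        t ^ (k + 1) * (∑ i, ∑ x : Fin k → m, cwt (S * Sᵀ) i (List.ofFn x) *
        (NormedSpace.exp (-(lg U i + ((List.ofFn x).map (lg U)).sum))).trace.re) := by
      intro k _
      rw [Finset.mul_sum]
      refine Finset.sum_congr rfl fun i _ => ?_
      rw [Finset.mul_sum]
      refine Finset.sum_congr rfl fun x _ => ?_
      rw [cwt_smul, List.length_ofFn]
      ring
    rw [Finset.sum_congr rfl e1] at hd
    refine hd.trans (le_of_eq ?_)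
    have hne : ∀ y, 1 - t * l y ≠ 0 := by
      intro y
      have := hlpos y
      by_cases h3 : l y ≤ 0
      · nlinarith
      · push Not at h3
        nlinarith
    have hinv : (1 - (t : ℂ) • ellM S E)⁻¹ = V * dg (fun y => (1 - t * l y)⁻¹) * Vᴴ := by
      refine Matrix.inv_eq_right_inv ?_
      rw [hdiag t]
      calc V * dg (fun y => 1 - t * l y) * Vᴴ * (V * dg (fun y => (1 - t * l y)⁻¹) * Vᴴ)
          = V * dg (fun y => 1 - t * l y) * (Vᴴ * V) * dg (fun y => (1 - t * l y)⁻¹) * Vᴴ := by
            simp only [Matrix.mul_assoc]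
        _ = V * (dg (fun y => 1 - t * l y) * dg (fun y => (1 - t * l y)⁻¹)) * Vᴴ := by
            rw [hV, Matrix.mul_one]
            simp only [Matrix.mul_assoc]
        _ = 1 := by
            rw [dg, dg, diagonal_mul_diagonal]
            have : (fun y => ((1 - t * l y : ℝ) : ℂ) * (((1 - t * l y)⁻¹ : ℝ) : ℂ)) =
                fun _ => (1 : ℂ) := by
              funext y
              rw [← Complex.ofReal_mul, mul_inv_cancel₀ (hne y), Complex.ofReal_one]
            rw [this, diagonal_one, Matrix.mul_one, hV']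
    rw [hinv, Matrix.trace_mul_comm, ← Matrix.mul_assoc, hV, Matrix.one_mul, dg, trace_diagonal,
      Complex.re_sum, Finset.sum_sub_distrib]
    congr 1
    rw [Finset.sum_const, Finset.card_univ, Fintype.card_prod]
    rw [nsmul_eq_mul, mul_one]
    push_cast
    ring
  have hcomp := log_compare l hlpos _ N hdisc
  -- the determinant
  have hdet : (net U (S * Sᵀ)).det = (∏ i, (U i).det) * (1 - ellM S E).det := by
    rw [← det_EB, ellM_eq, Matrix.mul_assoc, det_one_sub_mul_comm, ← det_mul, net_eq_MU, MU_eq]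
    congr 1
    rw [Matrix.mul_sub, Matrix.mul_one, SB_conjTranspose, Matrix.mul_assoc, SB_mul,
      ← Matrix.mul_assoc, hEU, Matrix.one_mul]
  have hdl : (1 - ellM S E).det = ((∏ y, (1 - l y) : ℝ) : ℂ) := by
    have h2 := hdiag 1
    rw [Complex.ofReal_one, one_smul] at h2
    rw [h2, Matrix.det_mul, Matrix.det_mul, mul_comm V.det, mul_assoc, ← Matrix.det_mul, hV',
      Matrix.det_one, mul_one, dg, det_diagonal]
    push_cast
    simp
  have hLd : Ld (net U (S * Sᵀ)) = ∑ i, Ld (U i) + ∑ y, Real.log (1 - l y) := by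
    rw [Ld_eq_ldet hM, Pool.Agent.LDK.ldet, hdet, hdl]
    have h1 : ∏ i, (U i).det = ((∏ i, (U i).det.re : ℝ) : ℂ) := by
      push_cast
      exact Finset.prod_congr rfl fun i _ => (Pool.Agent.LDK.det_re_pos (hU i)).2.symm
    rw [h1, ← Complex.ofReal_mul, Complex.ofReal_re, Real.log_mul, Real.log_prod, Real.log_prod]
    · congr 1
      exact Finset.sum_congr rfl fun i _ => (Ld_eq_ldet (hU i)).symm
    · exact fun y _ => (hlpos y).ne'
    · exact fun i _ => (Pool.Agent.LDK.det_re_pos (hU i)).1.ne'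
    · exact (Finset.prod_pos fun i _ => (Pool.Agent.LDK.det_re_pos (hU i)).1).ne'
    · exact (Finset.prod_pos fun y _ => hlpos y).ne'
  rw [hLd]
  have hfin : ∑ k ∈ Finset.range N, ∑ i, ∑ x : Fin k → m, cwt (S * Sᵀ) i (List.ofFn x) / (k + 1) *
      rtr (cfc Real.exp (-(lg U i + ((List.ofFn x).map (lg U)).sum))) =
      ∑ k ∈ Finset.range N, (∑ i, ∑ x : Fin k → m, cwt (S * Sᵀ) i (List.ofFn x) *
        (NormedSpace.exp (-(lg U i + ((List.ofFn x).map (lg U)).sum))).trace.re) / (k + 1) := by
    refine Finset.sum_congr rfl fun k _ => ?_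
    rw [Finset.sum_div]
    refine Finset.sum_congr rfl fun i _ => ?_
    rw [Finset.sum_div]
    refine Finset.sum_congr rfl fun x _ => ?_
    have hh : (-(lg U i + ((List.ofFn x).map (lg U)).sum)).IsHermitian := by
      refine ((hlg i).add ?_).neg
      show (((List.ofFn x).map (lg U)).sum)ᴴ = _
      induction (List.ofFn x) with
      | nil => simp
      | cons a L ih =>
        rw [List.map_cons, List.sum_cons, conjTranspose_add, ih, (hlg a).eq]
    rw [cfc_exp_eq hh, rtr]
    ring
  rw [hfin]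
  linarith

end Main

end Pool.Agent.LDS
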