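import Pool.Agent.Lib_helper57.LDS.L1

/-!
# LDS, block W1: the discrete trace inequality for block diagonal exponentials
-/

set_option autoImplicit false
set_option linter.unusedSectionVars false

open Matrix NormedSpace
open scoped ComplexOrder

namespace Pool.Agent.LDS

variable {n m : Type*} [Fintype n] [DecidableEq n] [Fintype m] [DecidableEq m]

/-! ## the real inner product on `m → Matrix n n ℂ` -/

/-- real inner product -/
noncomputable def ip (u v : m → Matrix n n ℂ) : ℝ := ∑ i, ((u i)ᴴ * v i).trace.re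

/-- squared norm -/
noncomputable def nq (u : m → Matrix n n ℂ) : ℝ := ∑ i, hs (u i)

theorem hs_conjTranspose (A : Matrix n n ℂ) : hs Aᴴ = hs A := by
  unfold hs
  rw [conjTranspose_conjTranspose, Matrix.trace_mul_comm]

theorem ip_self (u : m → Matrix n n ℂ) : ip u u = nq u := by
  unfold ip nq
  refine Finset.sum_congr rfl fun i _ => ?_
  rw [← hs_conjTranspose]
  unfold hs
  rw [conjTranspose_conjTranspose]

theorem ip_comm (u v : m → Matrix n n ℂ) : ip u v = ip v u := by
  unfold ip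
  refine Finset.sum_congr rfl fun i _ => ?_
  have : ((u i)ᴴ * v i) = ((v i)ᴴ * u i)ᴴ := by
    rw [conjTranspose_mul, conjTranspose_conjTranspose]
  rw [this, trace_conjTranspose]
  simp

theorem ip_add_left (u v w : m → Matrix n n ℂ) : ip (u + v) w = ip u w + ip v w := by
  unfold ip
  rw [← Finset.sum_add_distrib]
  refine Finset.sum_congr rfl fun i _ => ?_
  rw [Pi.add_apply, conjTranspose_add, Matrix.add_mul, trace_add, Complex.add_re]

theorem ip_add_right (u v w : m → Matrix n n ℂ) : ip u (v + w) = ip u v + ip u w := by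
  rw [ip_comm, ip_add_left, ip_comm v, ip_comm w]

theorem ip_smul_right (c : ℝ) (u v : m → Matrix n n ℂ) :
    ip u (fun i => (c : ℂ) • v i) = c * ip u v := by
  unfold ip
  rw [Finset.mul_sum]
  refine Finset.sum_congr rfl fun i _ => ?_
  rw [Matrix.mul_smul, trace_smul, smul_eq_mul, Complex.re_ofReal_mul]

theorem ip_sub_right (u v w : m → Matrix n n ℂ) : ip u (v - w) = ip u v - ip u w := by
  have h : ip u (v - w + w) = ip u (v - w) + ip u w := ip_add_right u (v - w) w
  rw [sub_add_cancel] at h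
  linarith

theorem nq_nonneg (u : m → Matrix n n ℂ) : 0 ≤ nq u :=
  Finset.sum_nonneg fun i _ => hs_nonneg (u i)

theorem two_ip_le (u v : m → Matrix n n ℂ) : 2 * ip u v ≤ nq u + nq v := by
  have h := nq_nonneg (u - v)
  rw [← ip_self, ip_sub_right, ip_comm (u - v), ip_comm (u - v), ip_sub_right, ip_sub_right,
    ip_self, ip_self, ip_comm v u] at h
  linarith

/-! ## the transfer operator -/

/-- `(S u)_j` -/
noncomputable def Su (S : Matrix m m ℝ) (u : m → Matrix n n ℂ) (j : m) : Matrix n n ℂ :=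
  ∑ l, (S j l : ℂ) • u l

/-- `T u = Sᵀ Φ S u`, `Φ(u)_j = F_j u_j F_j*` -/
noncomputable def Top (S : Matrix m m ℝ) (F : m → Matrix n n ℂ) (u : m → Matrix n n ℂ) :
    m → Matrix n n ℂ :=
  fun i => ∑ j, (S j i : ℂ) • (F j * Su S u j * (F j)ᴴ)

theorem ip_Top (S : Matrix m m ℝ) (F : m → Matrix n n ℂ) (w u : m → Matrix n n ℂ) :
    ip w (Top S F u) = ∑ j, ((Su S w j)ᴴ * (F j * Su S u j * (F j)ᴴ)).trace.re := by
  unfold ip Top
  simp only [Matrix.mul_sum, trace_sum, Complex.re_sum]
  rw [Finset.sum_comm]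
  refine Finset.sum_congr rfl fun j _ => ?_
  have : (Su S w j)ᴴ = ∑ l, (S j l : ℂ) • (w l)ᴴ := by
    unfold Su
    rw [conjTranspose_sum]
    refine Finset.sum_congr rfl fun l _ => ?_
    rw [conjTranspose_smul]
    simp
  rw [this, Finset.sum_mul, trace_sum, Complex.re_sum]
  refine Finset.sum_congr rfl fun l _ => ?_
  rw [Matrix.mul_smul, Matrix.smul_mul]

/-- `a(w) = ∑_j Tr (S w)_j* E_j (S w)_j` -/
noncomputable def qa (S : Matrix m m ℝ) (E : m → Matrix n n ℂ) (w : m → Matrix n n ℂ) : ℝ :=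
  ∑ j, ((Su S w j)ᴴ * E j * Su S w j).trace.re

theorem Su_star (S : Matrix m m ℝ) (u : m → Matrix n n ℂ) (j : m) :
    Su S (fun i => (u i)ᴴ) j = (Su S u j)ᴴ := by
  unfold Su
  rw [conjTranspose_sum]
  refine Finset.sum_congr rfl fun l _ => ?_
  rw [conjTranspose_smul]
  simp

theorem two_re_trace_le (A B : Matrix n n ℂ) : 2 * (Aᴴ * B).trace.re ≤ hs A + hs B := by
  have h := two_ip_le (m := Unit) (fun _ => A) (fun _ => B)
  simpa [ip, nq] using h

/-- geometric mean ≤ arithmetic mean -/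
theorem ip_Top_le (S : Matrix m m ℝ) (F E : m → Matrix n n ℂ) (h1 : ∀ j, F j * (F j)ᴴ = E j)
    (h2 : ∀ j, (F j)ᴴ * F j = E j) (w u : m → Matrix n n ℂ) :
    2 * ip w (Top S F u) ≤ qa S E w + qa S E (fun i => (u i)ᴴ) := by
  rw [ip_Top, Finset.mul_sum]
  unfold qa
  rw [← Finset.sum_add_distrib]
  refine Finset.sum_le_sum fun j _ => ?_
  rw [Su_star, conjTranspose_conjTranspose]
  set X := Su S w j
  set Y := Su S u j
  have e1 : Xᴴ * (F j * Y * (F j)ᴴ) = ((F j)ᴴ * X)ᴴ * (Y * (F j)ᴴ) := by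
    rw [conjTranspose_mul, conjTranspose_conjTranspose]
    simp only [Matrix.mul_assoc]
  rw [e1]
  refine (two_re_trace_le _ _).trans (le_of_eq ?_)
  have e2 : hs ((F j)ᴴ * X) = (Xᴴ * E j * X).trace.re := by
    rw [← hs_conjTranspose]
    unfold hs
    rw [conjTranspose_conjTranspose, conjTranspose_mul, conjTranspose_conjTranspose, ← h1 j]
    simp only [Matrix.mul_assoc]
  have e3 : hs (Y * (F j)ᴴ) = (Y * E j * Yᴴ).trace.re := by
    unfold hs
    rw [conjTranspose_mul, conjTranspose_conjTranspose, ← h2 j]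
    simp only [Matrix.mul_assoc]
  rw [e2, e3]

/-- the matrix `ℓ = Sᵀ E S` on `m × n` -/
noncomputable def ellM (S : Matrix m m ℝ) (E : m → Matrix n n ℂ) :
    Matrix (m × n) (m × n) ℂ :=
  Matrix.of fun p q => ∑ l, ((S l p.1 : ℂ) * (S l q.1 : ℂ)) * E l p.2 q.2

/-- column `b` of `w` -/
def col (w : m → Matrix n n ℂ) (b : n) : m × n → ℂ := fun p => w p.1 p.2 b

theorem sum4 (f : n → n → m → m → ℂ) :
    ∑ a, ∑ c, ∑ l, ∑ i, f a c l i = ∑ i, ∑ a, ∑ l, ∑ c, f a c l i := by
  calc _ = ∑ a, ∑ i, ∑ l, ∑ c, f a c l i := by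
        refine Finset.sum_congr rfl fun a _ => ?_
        calc _ = ∑ l, ∑ c, ∑ i, f a c l i := Finset.sum_comm
          _ = ∑ l, ∑ i, ∑ c, f a c l i := Finset.sum_congr rfl fun l _ => Finset.sum_comm
          _ = ∑ i, ∑ l, ∑ c, f a c l i := Finset.sum_comm
    _ = _ := Finset.sum_comm

theorem qa_eq (S : Matrix m m ℝ) (E : m → Matrix n n ℂ) (w : m → Matrix n n ℂ) :
    qa S E w = ∑ b, (star (col w b) ⬝ᵥ (ellM S E *ᵥ col w b)).re := by
  unfold qa
  have : ∀ j, ((Su S w j)ᴴ * E j * Su S w j).trace =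
      ∑ b, ∑ p : m × n, ∑ q : m × n, star (w p.1 p.2 b) *
        (((S j p.1 : ℂ) * (S j q.1 : ℂ)) * E j p.2 q.2 * w q.1 q.2 b) := by
    intro j
    simp only [trace, diag_apply]
    refine Finset.sum_congr rfl fun b _ => ?_
    rw [Matrix.mul_assoc, Matrix.mul_apply]
    simp only [Fintype.sum_prod_type, Su, conjTranspose_apply, Matrix.sum_apply, Matrix.smul_apply,
      smul_eq_mul, Matrix.mul_apply, star_sum, star_mul', RCLike.star_def, Complex.conj_ofReal]
    simp only [Finset.sum_mul, Finset.mul_sum]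
    rw [sum4 (fun a c l i => (S j i : ℂ) * (starRingEnd ℂ) (w i a b) *
      (E j a c * ((S j l : ℂ) * w l c b)))]
    refine Finset.sum_congr rfl fun i _ => Finset.sum_congr rfl fun a _ =>
      Finset.sum_congr rfl fun l _ => Finset.sum_congr rfl fun c _ => ?_
    ring
  simp only [this]
  refine (Complex.re_sum _ _).symm.trans (Eq.trans ?_ (Complex.re_sum _ _))
  congr 1
  rw [Finset.sum_comm]
  refine Finset.sum_congr rfl fun b _ => ?_
  simp only [dotProduct, mulVec, ellM, col, Matrix.of_apply, Pi.star_apply, Finset.mul_sum,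
    Finset.sum_mul]
  rw [Finset.sum_comm]
  refine Finset.sum_congr rfl fun p _ => ?_
  rw [Finset.sum_comm]

theorem nq_eq (w : m → Matrix n n ℂ) : nq w = ∑ b, (star (col w b) ⬝ᵥ col w b).re := by
  unfold nq
  have h1 : ∀ b, (star (col w b) ⬝ᵥ col w b).re = ∑ i, ∑ a, ‖w i a b‖ ^ 2 := by
    intro b
    simp only [dotProduct, col, Pi.star_apply, Complex.re_sum, Fintype.sum_prod_type]
    refine Finset.sum_congr rfl fun i _ => Finset.sum_congr rfl fun a _ => ?_
    rw [RCLike.star_def, ← Complex.normSq_eq_conj_mul_self, Complex.ofReal_re,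
      Complex.normSq_eq_norm_sq]
  simp only [h1, hs_eq]
  conv_rhs => rw [Finset.sum_comm]
  refine Finset.sum_congr rfl fun i _ => ?_
  rw [Finset.sum_comm]

end Pool.Agent.LDS
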