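import Pool.Agent.Lib_helper57.LDS.W1

/-!
# LDS, block W1 (second part): words, partial sums of the Neumann series, the discrete inequality
-/

set_option autoImplicit false
set_option linter.unusedSectionVars false

open Matrix NormedSpace
open scoped ComplexOrder

namespace Pool.Agent.LDS

variable {n m : Type*} [Fintype n] [DecidableEq n] [Fintype m] [DecidableEq m]

/-! ## words -/

/-- weight of a path which starts at `i`, goes through `x` and is closed by the function `f` of its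
last letter -/
def pwf (Q : Matrix m m ℝ) (f : m → ℝ) : m → List m → ℝ
  | i, [] => f i
  | i, (l :: x) => Q i l * pwf Q f l x

/-- weight of the closed path `i → x → i` -/
def cwt (Q : Matrix m m ℝ) (i : m) (x : List m) : ℝ := pwf Q (fun l => Q l i) i x

theorem pwf_nonneg {Q : Matrix m m ℝ} (hQ : ∀ i j, 0 ≤ Q i j) {f : m → ℝ} (hf : ∀ i, 0 ≤ f i)
    (i : m) (x : List m) : 0 ≤ pwf Q f i x := by
  induction x generalizing i with
  | nil => exact hf i
  | cons l x ih => exact mul_nonneg (hQ i l) (ih l)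

theorem cwt_nonneg {Q : Matrix m m ℝ} (hQ : ∀ i j, 0 ≤ Q i j) (i : m) (x : List m) :
    0 ≤ cwt Q i x := pwf_nonneg hQ (fun l => hQ l i) i x

theorem pwf_sum {ι : Type*} (s : Finset ι) (Q : Matrix m m ℝ) (c : ι → ℝ) (f : ι → m → ℝ)
    (i : m) (x : List m) :
    pwf Q (fun l => ∑ k ∈ s, c k * f k l) i x = ∑ k ∈ s, c k * pwf Q (f k) i x := by
  induction x generalizing i with
  | nil => rfl
  | cons l x ih =>
    simp only [pwf]
    rw [ih, Finset.mul_sum]
    refine Finset.sum_congr rfl fun k _ => ?_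
    ring

/-- sum over words of length `k + 1` -/
theorem sum_words {M : Type*} [AddCommMonoid M] (k : ℕ) (g : List m → M) :
    ∑ x : Fin (k + 1) → m, g (List.ofFn x) =
      ∑ l, ∑ x : Fin k → m, g (l :: List.ofFn x) := by
  rw [← Fintype.sum_prod_type' (f := fun l (x : Fin k → m) => g (l :: List.ofFn x))]
  refine (Fintype.sum_equiv (Fin.consEquiv (fun _ : Fin (k + 1) => m)) _ _ fun p => ?_).symm
  show g (p.1 :: List.ofFn p.2) = g (List.ofFn (Fin.cons p.1 p.2 : Fin (k + 1) → m))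
  rw [List.ofFn_cons]

/-- `(ΦQ)^k Φ f` -/
noncomputable def Zk (Q : Matrix m m ℝ) (F : m → Matrix n n ℂ) (f : m → ℝ) :
    ℕ → m → Matrix n n ℂ
  | 0, j => (f j : ℂ) • (F j * (F j)ᴴ)
  | k + 1, j => F j * (∑ l, (Q j l : ℂ) • Zk Q F f k l) * (F j)ᴴ

theorem Zk_words (Q : Matrix m m ℝ) (F : m → Matrix n n ℂ) (f : m → ℝ) (k : ℕ) (j : m) :
    Zk Q F f k j = ∑ x : Fin k → m, (pwf Q f j (List.ofFn x) : ℂ) •
      ((F j * ((List.ofFn x).map F).prod) * (F j * ((List.ofFn x).map F).prod)ᴴ) := by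
  induction k generalizing j with
  | zero => simp [Zk, pwf]
  | succ k ih =>
    rw [sum_words k (fun y => (pwf Q f j y : ℂ) •
      ((F j * (y.map F).prod) * (F j * (y.map F).prod)ᴴ))]
    simp only [Zk]
    rw [Finset.mul_sum, Finset.sum_mul]
    refine Finset.sum_congr rfl fun l _ => ?_
    rw [ih l, Finset.smul_sum, Finset.mul_sum, Finset.sum_mul]
    refine Finset.sum_congr rfl fun x _ => ?_
    simp only [pwf, List.map_cons, List.prod_cons]
    rw [smul_smul, Matrix.mul_smul, Matrix.smul_mul]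
    push_cast
    congr 1
    simp only [conjTranspose_mul, Matrix.mul_assoc]

theorem Su_Su (A B : Matrix m m ℝ) (u : m → Matrix n n ℂ) (j : m) :
    Su A (fun i => Su B u i) j = Su (A * B) u j := by
  unfold Su
  simp only [Finset.smul_sum, smul_smul, Matrix.mul_apply]
  rw [Finset.sum_comm]
  refine Finset.sum_congr rfl fun l _ => ?_
  rw [← Finset.sum_smul]
  push_cast
  rfl

theorem Top_eq (S : Matrix m m ℝ) (F : m → Matrix n n ℂ) (u : m → Matrix n n ℂ) (i : m) :
    Top S F u i = Su Sᵀ (fun j => F j * Su S u j * (F j)ᴴ) i := rfl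

theorem Top_iterate_single (S : Matrix m m ℝ) (F : m → Matrix n n ℂ) (k : ℕ) (i : m) :
    (Top S F)^[k + 1] (Pi.single i (1 : Matrix n n ℂ)) =
      fun i' => Su Sᵀ (Zk (S * Sᵀ) F (fun l => S l i) k) i' := by
  induction k with
  | zero =>
    rw [zero_add, Function.iterate_one]
    funext i'
    rw [Top_eq]
    congr 1
    funext j
    have : Su S (Pi.single i (1 : Matrix n n ℂ)) j = (S j i : ℂ) • (1 : Matrix n n ℂ) := by
      unfold Su
      rw [Finset.sum_eq_single i]
      · simp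
      · intro b _ hb
        simp [Pi.single_eq_of_ne hb]
      · simp
    rw [this]
    simp [Zk]
  | succ k ih =>
    rw [Function.iterate_succ_apply', ih]
    funext i'
    rw [Top_eq]
    congr 1
    funext j
    rw [Su_Su]
    rfl

/-- the `k`-th coefficient -/
noncomputable def yk (S : Matrix m m ℝ) (F : m → Matrix n n ℂ) (k : ℕ) : ℝ :=
  ∑ i, ip (Pi.single i (1 : Matrix n n ℂ)) ((Top S F)^[k] (Pi.single i (1 : Matrix n n ℂ)))

theorem ip_single (i : m) (u : m → Matrix n n ℂ) :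
    ip (Pi.single i (1 : Matrix n n ℂ)) u = (u i).trace.re := by
  unfold ip
  rw [Finset.sum_eq_single i]
  · simp
  · intro b _ hb
    simp [Pi.single_eq_of_ne hb]
  · simp

theorem yk_zero (S : Matrix m m ℝ) (F : m → Matrix n n ℂ) :
    yk S F 0 = Fintype.card m * Fintype.card n := by
  unfold yk
  simp [ip_single]

theorem yk_succ (S : Matrix m m ℝ) (F : m → Matrix n n ℂ) (k : ℕ) :
    yk S F (k + 1) = ∑ i, ∑ x : Fin k → m, cwt (S * Sᵀ) i (List.ofFn x) *
      hs (F i * ((List.ofFn x).map F).prod) := by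
  unfold yk
  simp only [ip_single, Top_iterate_single]
  have h1 : ∀ i, (Su Sᵀ (Zk (S * Sᵀ) F (fun l => S l i) k) i).trace.re =
      ∑ j, ∑ x : Fin k → m, S j i * pwf (S * Sᵀ) (fun l => S l i) j (List.ofFn x) *
        hs (F j * ((List.ofFn x).map F).prod) := by
    intro i
    unfold Su
    rw [trace_sum, Complex.re_sum]
    refine Finset.sum_congr rfl fun j _ => ?_
    rw [trace_smul, smul_eq_mul, Complex.re_ofReal_mul, Zk_words, trace_sum, Complex.re_sum,
      Finset.mul_sum, transpose_apply]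
    refine Finset.sum_congr rfl fun x _ => ?_
    rw [trace_smul, smul_eq_mul, Complex.re_ofReal_mul]
    unfold hs
    ring
  simp only [h1]
  rw [Finset.sum_comm]
  refine Finset.sum_congr rfl fun j _ => ?_
  rw [Finset.sum_comm]
  refine Finset.sum_congr rfl fun x _ => ?_
  rw [← Finset.sum_mul]
  congr 1
  rw [← pwf_sum]
  unfold cwt
  congr 1
  funext l
  rw [Matrix.mul_apply]
  refine Finset.sum_congr rfl fun k _ => ?_
  rw [transpose_apply]
  ring

theorem yk_nonneg {S : Matrix m m ℝ} (hQ : ∀ i j, 0 ≤ (S * Sᵀ) i j) (F : m → Matrix n n ℂ)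
    (k : ℕ) : 0 ≤ yk S F k := by
  cases k with
  | zero =>
    rw [yk_zero]
    positivity
  | succ k =>
    rw [yk_succ]
    exact Finset.sum_nonneg fun i _ => Finset.sum_nonneg fun x _ =>
      mul_nonneg (cwt_nonneg hQ _ _) (hs_nonneg _)

/-! ## the variational inequality -/

theorem posDef_var {ι : Type*} [Fintype ι] [DecidableEq ι] {G : Matrix ι ι ℂ} (hG : G.PosDef)
    (v c : ι → ℂ) :
    2 * (star v ⬝ᵥ c).re - (star c ⬝ᵥ (G *ᵥ c)).re ≤ (star v ⬝ᵥ (G⁻¹ *ᵥ v)).re := by
  have hdet : IsUnit G.det := (Matrix.isUnit_iff_isUnit_det _).1 hG.isUnit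
  have h := hG.posSemidef.re_dotProduct_nonneg (c - G⁻¹ *ᵥ v)
  have e1 : G *ᵥ (c - G⁻¹ *ᵥ v) = G *ᵥ c - v := by
    rw [mulVec_sub, mulVec_mulVec, Matrix.mul_nonsing_inv _ hdet, one_mulVec]
  have e2 : star (G⁻¹ *ᵥ v) ⬝ᵥ (G *ᵥ c) = star v ⬝ᵥ c := by
    rw [star_mulVec, hG.inv.isHermitian.eq, ← dotProduct_mulVec, mulVec_mulVec,
      Matrix.nonsing_inv_mul _ hdet, one_mulVec]
  have e3 : star (G⁻¹ *ᵥ v) ⬝ᵥ v = star v ⬝ᵥ (G⁻¹ *ᵥ v) := by
    rw [star_mulVec, hG.inv.isHermitian.eq, ← dotProduct_mulVec]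
  have e4 : (star c ⬝ᵥ v).re = (star v ⬝ᵥ c).re := by
    have : star c ⬝ᵥ v = star (star v ⬝ᵥ c) := by
      rw [star_dotProduct]
    rw [this]
    simp
  rw [e1, star_sub, sub_dotProduct, dotProduct_sub, dotProduct_sub, e2, e3] at h
  simp only [RCLike.re_eq_complex_re, map_sub] at h
  rw [e4] at h
  linarith

theorem nq_sub_qa (S : Matrix m m ℝ) (E : m → Matrix n n ℂ) (w : m → Matrix n n ℂ) :
    nq w - qa S E w = ∑ b, (star (col w b) ⬝ᵥ ((1 - ellM S E) *ᵥ col w b)).re := by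
  rw [nq_eq, qa_eq, ← Finset.sum_sub_distrib]
  refine Finset.sum_congr rfl fun b _ => ?_
  rw [sub_mulVec, one_mulVec, dotProduct_sub, Complex.sub_re]

theorem qa_le_nq {S : Matrix m m ℝ} {E : m → Matrix n n ℂ} (hG : (1 - ellM S E).PosDef)
    (w : m → Matrix n n ℂ) : qa S E w ≤ nq w := by
  have : 0 ≤ nq w - qa S E w := by
    rw [nq_sub_qa]
    exact Finset.sum_nonneg fun b _ => hG.posSemidef.re_dotProduct_nonneg _
  linarith

theorem col_single (i : m) (b : n) :
    col (Pi.single i (1 : Matrix n n ℂ)) b = Pi.single (i, b) (1 : ℂ) := by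
  funext p
  obtain ⟨i', a⟩ := p
  unfold col
  by_cases h : i' = i
  · subst h
    by_cases h2 : a = b
    · subst h2
      simp
    · rw [Pi.single_eq_same, Pi.single_eq_of_ne (fun h3 => h2 (Prod.ext_iff.1 h3).2)]
      exact Matrix.one_apply_ne h2
  · rw [Pi.single_eq_of_ne h, Pi.single_eq_of_ne (fun h3 => h (Prod.ext_iff.1 h3).1)]
    rfl

theorem var_single {S : Matrix m m ℝ} {E : m → Matrix n n ℂ} (hG : (1 - ellM S E).PosDef)
    (i : m) (u : m → Matrix n n ℂ) :
    2 * ip (Pi.single i (1 : Matrix n n ℂ)) u - (nq u - qa S E u) ≤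
      ∑ b, ((1 - ellM S E)⁻¹ (i, b) (i, b)).re := by
  rw [nq_sub_qa]
  have h1 : ip (Pi.single i (1 : Matrix n n ℂ)) u =
      ∑ b, (star (col (Pi.single i (1 : Matrix n n ℂ)) b) ⬝ᵥ col u b).re := by
    rw [ip_single, trace, Complex.re_sum]
    refine Finset.sum_congr rfl fun b _ => ?_
    rw [col_single]
    simp [col]
  rw [h1, Finset.mul_sum, ← Finset.sum_sub_distrib]
  refine Finset.sum_le_sum fun b _ => (posDef_var hG _ _).trans (le_of_eq ?_)
  rw [col_single]
  simp

end Pool.Agent.LDS
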