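import Pool.Agent.Lib_helper57.LDS.W1b

/-!
# LDS, block W1 (third part): the discrete inequality `disc`
-/

set_option autoImplicit false
set_option linter.unusedSectionVars false

open Matrix NormedSpace
open scoped ComplexOrder

namespace Pool.Agent.LDS

variable {n m : Type*} [Fintype n] [DecidableEq n] [Fintype m] [DecidableEq m]

theorem abs_ip_le (u v : m → Matrix n n ℂ) : |ip u v| ≤ √(nq u) * √(nq v) := by
  have h1 : |ip u v| ≤ ∑ i, √(hs (u i)) * √(hs (v i)) := by
    unfold ip
    refine (Finset.abs_sum_le_sum_abs _ _).trans (Finset.sum_le_sum fun i _ => ?_)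
    refine (Complex.abs_re_le_norm _).trans ((norm_trace_mul_le _ _).trans (le_of_eq ?_))
    rw [hs_conjTranspose]
  exact h1.trans (Real.sum_sqrt_mul_sqrt_le _ (fun i => hs_nonneg _) (fun i => hs_nonneg _))

theorem nq_star (u : m → Matrix n n ℂ) : nq (fun i => (u i)ᴴ) = nq u := by
  unfold nq
  exact Finset.sum_congr rfl fun i _ => hs_conjTranspose _

theorem nq_Top_le {S : Matrix m m ℝ} {F E : m → Matrix n n ℂ} (h1 : ∀ j, F j * (F j)ᴴ = E j)
    (h2 : ∀ j, (F j)ᴴ * F j = E j) (hG : (1 - ellM S E).PosDef) (u : m → Matrix n n ℂ) :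
    nq (Top S F u) ≤ nq u := by
  have h := ip_Top_le S F E h1 h2 (Top S F u) u
  rw [ip_self] at h
  have ha := qa_le_nq hG (Top S F u)
  have hb := qa_le_nq hG (fun i => (u i)ᴴ)
  rw [nq_star] at hb
  linarith

theorem qa_nonneg {S : Matrix m m ℝ} {F E : m → Matrix n n ℂ} (h1 : ∀ j, F j * (F j)ᴴ = E j)
    (w : m → Matrix n n ℂ) : 0 ≤ qa S E w := by
  unfold qa
  refine Finset.sum_nonneg fun j _ => ?_
  have e : ((Su S w j)ᴴ * E j * Su S w j).trace.re = hs ((F j)ᴴ * Su S w j) := by
    rw [← hs_conjTranspose]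
    unfold hs
    rw [conjTranspose_conjTranspose, conjTranspose_mul, conjTranspose_conjTranspose, ← h1 j]
    simp only [Matrix.mul_assoc]
  rw [e]
  exact hs_nonneg _

theorem Su_add (S : Matrix m m ℝ) (u v : m → Matrix n n ℂ) (j : m) :
    Su S (u + v) j = Su S u j + Su S v j := by
  unfold Su
  rw [← Finset.sum_add_distrib]
  refine Finset.sum_congr rfl fun l _ => ?_
  rw [Pi.add_apply, smul_add]

theorem Top_add (S : Matrix m m ℝ) (F : m → Matrix n n ℂ) (u v : m → Matrix n n ℂ) :
    Top S F (u + v) = Top S F u + Top S F v := by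
  funext i
  simp only [Top, Pi.add_apply]
  rw [← Finset.sum_add_distrib]
  refine Finset.sum_congr rfl fun j _ => ?_
  rw [Su_add, Matrix.mul_add, Matrix.add_mul, smul_add]

theorem Top_smul (S : Matrix m m ℝ) (F : m → Matrix n n ℂ) (c : ℂ) (u : m → Matrix n n ℂ) :
    Top S F (c • u) = c • Top S F u := by
  funext i
  simp only [Top, Pi.smul_apply]
  rw [Finset.smul_sum]
  refine Finset.sum_congr rfl fun j _ => ?_
  have : Su S (c • u) j = c • Su S u j := by
    unfold Su
    rw [Finset.smul_sum]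
    refine Finset.sum_congr rfl fun l _ => ?_
    rw [Pi.smul_apply, smul_comm]
  rw [this, Matrix.mul_smul, Matrix.smul_mul, smul_comm]

theorem Top_zero (S : Matrix m m ℝ) (F : m → Matrix n n ℂ) :
    Top S F 0 = (0 : m → Matrix n n ℂ) := by
  have h := Top_smul S F 0 (0 : m → Matrix n n ℂ)
  simpa using h

theorem Top_sum (S : Matrix m m ℝ) (F : m → Matrix n n ℂ) (N : ℕ)
    (u : ℕ → m → Matrix n n ℂ) :
    Top S F (∑ k ∈ Finset.range N, u k) = ∑ k ∈ Finset.range N, Top S F (u k) := by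
  induction N with
  | zero => simp [Top_zero]
  | succ N ih => rw [Finset.sum_range_succ, Top_add, ih, Finset.sum_range_succ]

theorem ip_sum_right (N : ℕ) (w : m → Matrix n n ℂ) (u : ℕ → m → Matrix n n ℂ) :
    ip w (∑ k ∈ Finset.range N, u k) = ∑ k ∈ Finset.range N, ip w (u k) := by
  induction N with
  | zero => simp [ip]
  | succ N ih => rw [Finset.sum_range_succ, ip_add_right, ih, Finset.sum_range_succ]

theorem nq_smul (c : ℝ) (u : m → Matrix n n ℂ) : nq ((c : ℂ) • u) = c ^ 2 * nq u := by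
  have h1 : ip ((c : ℂ) • u) ((c : ℂ) • u) = c * ip ((c : ℂ) • u) u := ip_smul_right c _ u
  have h2 : ip u ((c : ℂ) • u) = c * ip u u := ip_smul_right c u u
  rw [← ip_self, h1, ip_comm, h2, ip_self]
  ring

theorem nq_iter_le {S : Matrix m m ℝ} {F E : m → Matrix n n ℂ} (h1 : ∀ j, F j * (F j)ᴴ = E j)
    (h2 : ∀ j, (F j)ᴴ * F j = E j) (hG : (1 - ellM S E).PosDef) (k : ℕ)
    (v : m → Matrix n n ℂ) : nq ((Top S F)^[k] v) ≤ nq v := by
  induction k with
  | zero => exact le_rfl
  | succ k ih =>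
    rw [Function.iterate_succ_apply']
    exact (nq_Top_le h1 h2 hG _).trans ih

/-- one site, damped -/
theorem site_bound {S : Matrix m m ℝ} {F E : m → Matrix n n ℂ} (h1 : ∀ j, F j * (F j)ᴴ = E j)
    (h2 : ∀ j, (F j)ᴴ * F j = E j) (hG : (1 - ellM S E).PosDef) {c : ℝ} (hc0 : 0 ≤ c)
    (hc1 : c ≤ 1) (i : m) (N : ℕ) :
    ∑ k ∈ Finset.range N, c ^ k * ip (Pi.single i (1 : Matrix n n ℂ))
        ((Top S F)^[k] (Pi.single i (1 : Matrix n n ℂ))) ≤
      ∑ b, ((1 - ellM S E)⁻¹ (i, b) (i, b)).re +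
        N * c ^ N * nq (Pi.single i (1 : Matrix n n ℂ)) := by
  set v : m → Matrix n n ℂ := Pi.single i (1 : Matrix n n ℂ) with hv
  set p : ℕ → m → Matrix n n ℂ := fun k => ((c ^ k : ℝ) : ℂ) • (Top S F)^[k] v with hp
  set U : m → Matrix n n ℂ := ∑ k ∈ Finset.range N, p k with hU
  set B : ℝ := ∑ b, ((1 - ellM S E)⁻¹ (i, b) (i, b)).re with hB
  have hnp : ∀ k, nq (p k) ≤ (c ^ k) ^ 2 * nq v := by
    intro k
    rw [hp]
    simp only
    rw [nq_smul]
    exact mul_le_mul_of_nonneg_left (nq_iter_le h1 h2 hG k v) (by positivity)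
  -- the sum
  have e0 : ∑ k ∈ Finset.range N, c ^ k * ip v ((Top S F)^[k] v) = ip v U := by
    rw [hU, ip_sum_right]
    refine Finset.sum_congr rfl fun k _ => ?_
    exact (ip_smul_right (c ^ k) v _).symm
  -- telescoping
  have e1 : ∀ k, (c : ℂ) • Top S F (p k) = p (k + 1) := by
    intro k
    rw [hp]
    simp only
    rw [Top_smul, smul_smul, Function.iterate_succ_apply', pow_succ']
    push_cast
    rfl
  have e2 : U - (c : ℂ) • Top S F U = v - p N := by
    rw [hU, Top_sum, Finset.smul_sum]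
    simp only [e1]
    rw [← Finset.sum_sub_distrib, Finset.sum_range_sub']
    simp [hp]
  -- the three inequalities
  have v1 := var_single hG i U
  have v2 := var_single hG i (fun j => (U j)ᴴ)
  have e3 : ip v (fun j => (U j)ᴴ) = ip v U := by
    rw [hv, ip_single, ip_single, trace_conjTranspose]
    simp
  rw [← hv, e3, nq_star] at v2
  have k1 := ip_Top_le S F E h1 h2 U U
  have a1 := qa_nonneg (S := S) h1 U
  have a2 := qa_nonneg (S := S) h1 (fun j => (U j)ᴴ)
  have e4 : ip U (U - (c : ℂ) • Top S F U) = nq U - c * ip U (Top S F U) := by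
    rw [ip_sub_right, ip_self]
    congr 1
    exact ip_smul_right c U _
  rw [e2, ip_sub_right, ip_comm U v] at e4
  -- the error term
  have e5 : -(N * c ^ N * nq v) ≤ ip U (p N) := by
    rw [ip_comm, hU, ip_sum_right]
    have : ∀ k ∈ Finset.range N, -(c ^ N * nq v) ≤ ip (p N) (p k) := by
      intro k hk
      have hb := abs_ip_le (p N) (p k)
      have hv0 := nq_nonneg v
      have s1 : √(nq (p N)) ≤ c ^ N * √(nq v) := by
        rw [← Real.sqrt_sq (pow_nonneg hc0 N), ← Real.sqrt_mul (by positivity)]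
        exact Real.sqrt_le_sqrt (hnp N)
      have s2 : √(nq (p k)) ≤ √(nq v) := by
        refine Real.sqrt_le_sqrt ((hnp k).trans ?_)
        have : (c ^ k) ^ 2 ≤ 1 := by
          have := pow_le_one₀ (n := k) hc0 hc1
          have h0 := pow_nonneg hc0 k
          nlinarith
        nlinarith
      have s3 : √(nq (p N)) * √(nq (p k)) ≤ c ^ N * nq v := by
        calc √(nq (p N)) * √(nq (p k)) ≤ (c ^ N * √(nq v)) * √(nq v) :=
              mul_le_mul s1 s2 (Real.sqrt_nonneg _) (by positivity)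
          _ = c ^ N * nq v := by rw [mul_assoc, Real.mul_self_sqrt hv0]
      have := neg_abs_le (ip (p N) (p k))
      linarith
    have h := Finset.sum_le_sum this
    rw [Finset.sum_const, Finset.card_range, nsmul_eq_mul] at h
    linarith
  rw [e0]
  have k2 : c * ip U (Top S F U) ≤ (qa S E U + qa S E (fun j => (U j)ᴴ)) / 2 := by
    have k3 : c * (2 * ip U (Top S F U)) ≤ c * (qa S E U + qa S E (fun j => (U j)ᴴ)) :=
      mul_le_mul_of_nonneg_left k1 hc0
    have k4 : c * (qa S E U + qa S E (fun j => (U j)ᴴ)) ≤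
        1 * (qa S E U + qa S E (fun j => (U j)ᴴ)) :=
      mul_le_mul_of_nonneg_right hc1 (by linarith)
    linarith
  linarith

theorem tendsto_mul_pow_zero {c : ℝ} (h0 : 0 ≤ c) (h1 : c < 1) (D : ℝ) :
    Filter.Tendsto (fun N : ℕ => (N : ℝ) * c ^ N * D) Filter.atTop (nhds 0) := by
  have h := (tendsto_self_mul_const_pow_of_lt_one h0 h1).mul_const D
  simpa using h

/-- all sites, no damping -/
theorem total_bound {S : Matrix m m ℝ} (hQ : ∀ i j, 0 ≤ (S * Sᵀ) i j)
    {F E : m → Matrix n n ℂ} (h1 : ∀ j, F j * (F j)ᴴ = E j)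
    (h2 : ∀ j, (F j)ᴴ * F j = E j) (hG : (1 - ellM S E).PosDef) (N : ℕ) :
    ∑ k ∈ Finset.range N, yk S F k ≤ ((1 - ellM S E)⁻¹).trace.re := by
  set B : ℝ := ((1 - ellM S E)⁻¹).trace.re with hB
  have hBs : B = ∑ i, ∑ b, ((1 - ellM S E)⁻¹ (i, b) (i, b)).re := by
    rw [hB, trace, Complex.re_sum, Fintype.sum_prod_type]
    rfl
  -- damped
  have hd : ∀ c : ℝ, 0 ≤ c → c < 1 → ∑ k ∈ Finset.range N, c ^ k * yk S F k ≤ B := by
    intro c hc0 hc1
    set D : ℝ := ∑ i : m, nq (Pi.single i (1 : Matrix n n ℂ)) with hD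
    have hN : ∀ N' : ℕ, N ≤ N' →
        ∑ k ∈ Finset.range N, c ^ k * yk S F k ≤ B + (N' : ℝ) * c ^ N' * D := by
      intro N' hN'
      have a1 : ∑ k ∈ Finset.range N, c ^ k * yk S F k ≤
          ∑ k ∈ Finset.range N', c ^ k * yk S F k :=
        Finset.sum_le_sum_of_subset_of_nonneg (Finset.range_mono hN')
          fun k _ _ => mul_nonneg (pow_nonneg hc0 k) (yk_nonneg hQ F k)
      refine a1.trans ?_
      have a2 : ∑ k ∈ Finset.range N', c ^ k * yk S F k =
          ∑ i, ∑ k ∈ Finset.range N', c ^ k * ip (Pi.single i (1 : Matrix n n ℂ))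
            ((Top S F)^[k] (Pi.single i (1 : Matrix n n ℂ))) := by
        unfold yk
        simp only [Finset.mul_sum]
        rw [Finset.sum_comm]
      rw [a2]
      refine (Finset.sum_le_sum fun i _ => site_bound h1 h2 hG hc0 hc1.le i N').trans ?_
      rw [Finset.sum_add_distrib, hBs, hD, Finset.mul_sum]
    have hlim : Filter.Tendsto (fun N' : ℕ => B + (N' : ℝ) * c ^ N' * D) Filter.atTop
        (nhds (B + 0)) := (tendsto_mul_pow_zero hc0 hc1 D).const_add B
    rw [add_zero] at hlim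
    exact ge_of_tendsto hlim (Filter.eventually_atTop.2 ⟨N, hN⟩)
  -- c → 1
  have hcont : Continuous fun c : ℝ => ∑ k ∈ Finset.range N, c ^ k * yk S F k := by
    fun_prop
  have hlim : Filter.Tendsto (fun c : ℝ => ∑ k ∈ Finset.range N, c ^ k * yk S F k)
      (nhdsWithin 1 (Set.Iio 1)) (nhds (∑ k ∈ Finset.range N, yk S F k)) := by
    have h := (hcont.tendsto 1).mono_left (nhdsWithin_le_nhds (s := Set.Iio (1 : ℝ)))
    simpa using h
  refine le_of_tendsto hlim ?_
  filter_upwards [Ico_mem_nhdsLT (show (0 : ℝ) < 1 by norm_num)] with c hc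
  exact hd c hc.1 hc.2

/-- words `i, x` with `x` of length `k < N` -/
abbrev Wd (m : Type*) (N : ℕ) : Type _ := (k : Fin N) × (m × (Fin (k : ℕ) → m))

theorem sum_Wd (N : ℕ) (g : (k : ℕ) → m → (Fin k → m) → ℝ) :
    ∑ X : Wd m N, g X.1 X.2.1 X.2.2 =
      ∑ k ∈ Finset.range N, ∑ i, ∑ x : Fin k → m, g k i x := by
  rw [Fintype.sum_sigma, ← Fin.sum_univ_eq_sum_range
    (fun k => ∑ i, ∑ x : Fin k → m, g k i x)]
  refine Finset.sum_congr rfl fun k _ => ?_
  rw [Fintype.sum_prod_type]

/-- **The discrete inequality.** -/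
theorem disc (H : m → Matrix n n ℂ) (hH : ∀ i, (H i).IsHermitian) (S : Matrix m m ℝ)
    (hQ : ∀ i j, 0 ≤ (S * Sᵀ) i j)
    (hG : (1 - ellM S (fun i => exp (-H i))).PosDef) (N : ℕ) :
    ∑ k ∈ Finset.range N, ∑ i, ∑ x : Fin k → m, cwt (S * Sᵀ) i (List.ofFn x) *
        (exp (-(H i + ((List.ofFn x).map H).sum))).trace.re ≤
      ((1 - ellM S (fun i => exp (-H i)))⁻¹).trace.re -
        Fintype.card m * Fintype.card n := by
  set B : ℝ := ((1 - ellM S (fun i => exp (-H i)))⁻¹).trace.re with hB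
  have h := three_lines (X := Wd m N)
    (w := fun X => cwt (S * Sᵀ) X.2.1 (List.ofFn X.2.2))
    (fun X => cwt_nonneg hQ _ _)
    (L := fun X => (X.2.1 :: List.ofFn X.2.2).map fun i => -H i)
    (by
      intro X A hA
      obtain ⟨i, _, rfl⟩ := List.mem_map.1 hA
      exact (hH i).neg)
    (B - Fintype.card m * Fintype.card n) ?_
  · refine (le_of_eq ?_).trans h
    rw [sum_Wd N (fun k i x => cwt (S * Sᵀ) i (List.ofFn x) *
      (exp ((i :: List.ofFn x).map fun i => -H i).sum).trace.re)]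
    refine Finset.sum_congr rfl fun k _ => Finset.sum_congr rfl fun i _ =>
      Finset.sum_congr rfl fun x _ => ?_
    congr 4
    rw [List.map_cons, List.sum_cons, neg_add]
    congr 1
    generalize List.ofFn x = l
    induction l with
    | nil => simp
    | cons a l ih =>
      rw [List.map_cons, List.map_cons, List.sum_cons, List.sum_cons, neg_add, ih]
  · intro t
    set z : ℂ := (1 + t * Complex.I) / 2 with hz
    set F : m → Matrix n n ℂ := fun i => exp (z • (-H i)) with hF
    have hzs : z + star z = 1 := by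
      rw [hz]
      apply Complex.ext
      · simp
        ring
      · simp
        ring
    have h1 : ∀ j, F j * (F j)ᴴ = exp (-H j) := by
      intro j
      rw [hF]
      simp only
      rw [exp_smul_conjTranspose (hH j).neg, ← exp_smul_add, hzs, one_smul]
    have h2 : ∀ j, (F j)ᴴ * F j = exp (-H j) := by
      intro j
      rw [hF]
      simp only
      rw [exp_smul_conjTranspose (hH j).neg, ← exp_smul_add, add_comm, hzs, one_smul]
    have ht := total_bound hQ h1 h2 hG (N + 1)
    rw [Finset.sum_range_succ', yk_zero] at ht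
    rw [sum_Wd N (fun k i x => cwt (S * Sᵀ) i (List.ofFn x) *
      hs (pexp ((i :: List.ofFn x).map fun i => -H i) z))]
    have e : ∑ k ∈ Finset.range N, ∑ i, ∑ x : Fin k → m, cwt (S * Sᵀ) i (List.ofFn x) *
        hs (pexp ((i :: List.ofFn x).map fun i => -H i) z) =
        ∑ k ∈ Finset.range N, yk S F (k + 1) := by
      refine Finset.sum_congr rfl fun k _ => ?_
      rw [yk_succ]
      refine Finset.sum_congr rfl fun i _ => Finset.sum_congr rfl fun x _ => ?_
      congr 2
      unfold pexp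
      rw [List.map_cons, List.map_cons, List.prod_cons, List.map_map]
      rfl
    rw [e]
    linarith

end Pool.Agent.LDS
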