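import Pool.Agent.Lib_helper57.LDS.Defs2

/-!
# LDS, block W2: the limit `h → 0`
-/

set_option autoImplicit false
set_option linter.unusedSectionVars false

open Matrix NormedSpace Filter Topology
open scoped ComplexOrder

namespace Pool.Agent.LDS

variable {n m : Type*} [Fintype n] [DecidableEq n] [Fintype m] [DecidableEq m]

/-! ## block matrices -/

/-- block diagonal matrix -/
def EB (E : m → Matrix n n ℂ) : Matrix (m × n) (m × n) ℂ :=
  Matrix.of fun p q => if p.1 = q.1 then E p.1 p.2 q.2 else 0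

/-- `S ⊗ 1` -/
def SB (S : Matrix m m ℝ) : Matrix (m × n) (m × n) ℂ :=
  Matrix.of fun p q => if p.2 = q.2 then (S p.1 q.1 : ℂ) else 0

theorem MU_eq (U : m → Matrix n n ℂ) (K : Matrix m m ℝ) : MU U K = EB U - SB K := rfl

theorem EB_mul (E F : m → Matrix n n ℂ) : EB E * EB F = EB (fun i => E i * F i) := by
  ext p q
  rw [Matrix.mul_apply, Fintype.sum_prod_type]
  simp only [EB, Matrix.of_apply]
  rw [Finset.sum_eq_single p.1]
  · by_cases h : p.1 = q.1
    · simp only [if_true, h, Matrix.mul_apply]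
    · simp [h]
  · intro b _ hb
    refine Finset.sum_eq_zero fun c _ => ?_
    rw [if_neg (Ne.symm hb), zero_mul]
  · simp

theorem EB_one : EB (fun _ : m => (1 : Matrix n n ℂ)) = 1 := by
  ext p q
  simp only [EB, Matrix.of_apply, Matrix.one_apply, Prod.ext_iff]
  by_cases h : p.1 = q.1 <;> simp [h]

theorem SB_mul (S T : Matrix m m ℝ) : SB (n := n) S * SB T = SB (S * T) := by
  ext p q
  rw [Matrix.mul_apply, Fintype.sum_prod_type_right]
  simp only [SB, Matrix.of_apply]
  rw [Finset.sum_eq_single p.2]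
  · by_cases h : p.2 = q.2
    · simp only [if_true, h, Matrix.mul_apply]
      push_cast
      rfl
    · simp [h]
  · intro b _ hb
    refine Finset.sum_eq_zero fun c _ => ?_
    rw [if_neg (Ne.symm hb), zero_mul]
  · simp

theorem SB_one : SB (n := n) (1 : Matrix m m ℝ) = 1 := by
  ext p q
  simp only [SB, Matrix.of_apply, Matrix.one_apply, Prod.ext_iff]
  by_cases h : p.2 = q.2 <;> by_cases h' : p.1 = q.1 <;> simp [h, h']

theorem SB_add (S T : Matrix m m ℝ) : SB (n := n) (S + T) = SB S + SB T := by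
  ext p q
  simp only [SB, Matrix.of_apply, Matrix.add_apply]
  split_ifs <;> simp

theorem SB_smul (c : ℝ) (S : Matrix m m ℝ) : SB (n := n) (c • S) = (c : ℂ) • SB S := by
  ext p q
  simp only [SB, Matrix.of_apply, Matrix.smul_apply]
  split_ifs <;> simp

theorem SB_conjTranspose (S : Matrix m m ℝ) : (SB (n := n) S)ᴴ = SB Sᵀ := by
  ext p q
  simp only [SB, conjTranspose_apply, Matrix.of_apply, transpose_apply]
  by_cases h : p.2 = q.2
  · rw [if_pos h, if_pos h.symm]
    simp
  · rw [if_neg h, if_neg (Ne.symm h)]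
    simp

theorem EB_conjTranspose (E : m → Matrix n n ℂ) : (EB E)ᴴ = EB (fun i => (E i)ᴴ) := by
  ext p q
  simp only [EB, conjTranspose_apply, Matrix.of_apply]
  by_cases h : p.1 = q.1
  · rw [if_pos h, if_pos h.symm, h]
  · rw [if_neg h, if_neg (Ne.symm h)]
    simp

theorem EB_add (E F : m → Matrix n n ℂ) : EB (fun i => E i + F i) = EB E + EB F := by
  ext p q
  simp only [EB, Matrix.of_apply, Matrix.add_apply]
  split_ifs <;> simp

theorem EB_sub (E F : m → Matrix n n ℂ) : EB (fun i => E i - F i) = EB E - EB F := by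
  ext p q
  simp only [EB, Matrix.of_apply, Matrix.sub_apply]
  split_ifs <;> simp

theorem EB_smul (c : ℂ) (E : m → Matrix n n ℂ) : EB (fun i => c • E i) = c • EB E := by
  ext p q
  simp only [EB, Matrix.of_apply, Matrix.smul_apply]
  split_ifs <;> simp

theorem ellM_eq (S : Matrix m m ℝ) (E : m → Matrix n n ℂ) :
    ellM S E = (SB S)ᴴ * EB E * SB S := by
  ext p q
  rw [SB_conjTranspose, Matrix.mul_apply]
  have h1 : ∀ r : m × n, (SB (n := n) Sᵀ * EB E) p r = (S r.1 p.1 : ℂ) * E r.1 p.2 r.2 := by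
    intro r
    rw [Matrix.mul_apply, Fintype.sum_prod_type]
    rw [Finset.sum_eq_single r.1]
    · rw [Finset.sum_eq_single p.2]
      · simp [SB, EB]
      · intro b _ hb
        simp [SB, Ne.symm hb]
      · simp
    · intro b _ hb
      refine Finset.sum_eq_zero fun c _ => ?_
      simp [EB, hb]
    · simp
  simp only [h1]
  rw [Fintype.sum_prod_type]
  simp only [ellM, Matrix.of_apply]
  refine Finset.sum_congr rfl fun l _ => ?_
  rw [Finset.sum_eq_single q.2]
  · simp [SB]
    ring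
  · intro b _ hb
    simp [SB, hb]
  · simp

theorem EB_posSemidef {E : m → Matrix n n ℂ} (h : ∀ i, (E i).PosSemidef) :
    (EB E).PosSemidef := by
  refine Matrix.PosSemidef.of_dotProduct_mulVec_nonneg ?_ fun x => ?_
  · show (EB E)ᴴ = EB E
    rw [EB_conjTranspose]
    congr 1
    funext i
    exact (h i).isHermitian
  · have e : star x ⬝ᵥ (EB E *ᵥ x) =
        ∑ i, (star (fun a => x (i, a)) ⬝ᵥ (E i *ᵥ fun a => x (i, a))) := by
      simp only [dotProduct, mulVec, Fintype.sum_prod_type, EB, Matrix.of_apply, Pi.star_apply]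
      refine Finset.sum_congr rfl fun i _ => Finset.sum_congr rfl fun a _ => ?_
      congr 1
      rw [Finset.sum_eq_single i]
      · simp
      · intro b _ hb
        refine Finset.sum_eq_zero fun c _ => ?_
        rw [if_neg (Ne.symm hb), zero_mul]
      · simp
    rw [e]
    exact Finset.sum_nonneg fun i _ => (h i).dotProduct_mulVec_nonneg _

theorem EB_posDef {E : m → Matrix n n ℂ} (h : ∀ i, (E i).PosDef) :
    (EB E).PosDef := by
  refine Matrix.PosDef.of_dotProduct_mulVec_pos ?_ fun x hx => ?_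
  · exact (EB_posSemidef fun i => (h i).posSemidef).isHermitian
  · have e : star x ⬝ᵥ (EB E *ᵥ x) =
        ∑ i, (star (fun a => x (i, a)) ⬝ᵥ (E i *ᵥ fun a => x (i, a))) := by
      simp only [dotProduct, mulVec, Fintype.sum_prod_type, EB, Matrix.of_apply, Pi.star_apply]
      refine Finset.sum_congr rfl fun i _ => Finset.sum_congr rfl fun a _ => ?_
      congr 1
      rw [Finset.sum_eq_single i]
      · simp
      · intro b _ hb
        refine Finset.sum_eq_zero fun c _ => ?_
        rw [if_neg (Ne.symm hb), zero_mul]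
      · simp
    rw [e]
    obtain ⟨⟨i, a⟩, hia⟩ := Function.ne_iff.1 hx
    refine Finset.sum_pos' (fun j _ => (h j).posSemidef.dotProduct_mulVec_nonneg _)
      ⟨i, Finset.mem_univ _, (h i).dotProduct_mulVec_pos ?_⟩
    exact Function.ne_iff.2 ⟨a, hia⟩

/-! ## positivity of `1 - Sᵀ E S` -/

theorem one_sub_posDef {ι : Type*} [Fintype ι] [DecidableEq ι] {E E' S : Matrix ι ι ℂ}
    (hE : E.IsHermitian) (hE' : E' * E = 1) (hpos : (E' - S * Sᴴ).PosDef) :
    (1 - Sᴴ * E * S).PosDef := by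
  refine PosDef.of_dotProduct_mulVec_pos ?_ fun x hx => ?_
  · refine isHermitian_one.sub ?_
    show (Sᴴ * E * S)ᴴ = Sᴴ * E * S
    rw [conjTranspose_mul, conjTranspose_mul, conjTranspose_conjTranspose, hE.eq,
      Matrix.mul_assoc]
  · set w : ι → ℂ := E *ᵥ (S *ᵥ x) with hw
    have hE'w : E' *ᵥ w = S *ᵥ x := by
      rw [hw, mulVec_mulVec, hE', one_mulVec]
    -- `a = ⟨Sx, E S x⟩ = ⟨w, E' w⟩ = ⟨x, Sᴴ w⟩`
    have e1 : star x ⬝ᵥ ((Sᴴ * E * S) *ᵥ x) = star x ⬝ᵥ (Sᴴ *ᵥ w) := by
      rw [hw, mulVec_mulVec, mulVec_mulVec, Matrix.mul_assoc]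
    have hstar : star (Sᴴ *ᵥ w) = star w ᵥ* S := by
      rw [star_mulVec Sᴴ w, conjTranspose_conjTranspose]
    have e2 : star w ⬝ᵥ (E' *ᵥ w) = star (star x ⬝ᵥ (Sᴴ *ᵥ w)) := by
      rw [hE'w, dotProduct_mulVec (star w) S x, ← hstar, ← star_dotProduct_star, star_star]
    have e3 : star w ⬝ᵥ ((S * Sᴴ) *ᵥ w) = star (Sᴴ *ᵥ w) ⬝ᵥ (Sᴴ *ᵥ w) := by
      rw [hstar, ← dotProduct_mulVec (star w) S (Sᴴ *ᵥ w), mulVec_mulVec w S Sᴴ]
    have hre : ∀ z : ι → ℂ, (star z ⬝ᵥ z).re = ∑ i, ‖z i‖ ^ 2 := by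
      intro z
      simp only [dotProduct, Pi.star_apply, Complex.re_sum]
      refine Finset.sum_congr rfl fun i _ => ?_
      rw [RCLike.star_def, ← Complex.normSq_eq_conj_mul_self, Complex.ofReal_re,
        Complex.normSq_eq_norm_sq]
    have him : ∀ z : ι → ℂ, (star z ⬝ᵥ z).im = 0 := by
      intro z
      simp only [dotProduct, Pi.star_apply, Complex.im_sum]
      refine Finset.sum_eq_zero fun i _ => ?_
      rw [RCLike.star_def, ← Complex.normSq_eq_conj_mul_self, Complex.ofReal_im]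
    have hx0 : 0 < (star x ⬝ᵥ x).re := by
      rw [hre]
      obtain ⟨i, hi⟩ := Function.ne_iff.1 hx
      exact Finset.sum_pos' (fun _ _ => by positivity)
        ⟨i, Finset.mem_univ _, by
          have : 0 < ‖x i‖ := norm_pos_iff.2 hi
          positivity⟩
    -- 2 Re⟨x, y⟩ ≤ |x|² + |y|²
    have hamgm : ∀ y : ι → ℂ, 2 * (star x ⬝ᵥ y).re ≤ (star x ⬝ᵥ x).re + (star y ⬝ᵥ y).re := by
      intro y
      have h1 : 0 ≤ (star (x - y) ⬝ᵥ (x - y)).re := by
        rw [hre]
        positivity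
      have h2 : star (x - y) ⬝ᵥ (x - y) =
          star x ⬝ᵥ x - star x ⬝ᵥ y - (star y ⬝ᵥ x - star y ⬝ᵥ y) := by
        rw [star_sub, sub_dotProduct, dotProduct_sub, dotProduct_sub]
      have h3 : (star y ⬝ᵥ x).re = (star x ⬝ᵥ y).re := by
        have : star y ⬝ᵥ x = star (star x ⬝ᵥ y) := by rw [star_dotProduct]
        rw [this]
        simp
      rw [h2] at h1
      simp only [Complex.sub_re] at h1
      rw [h3] at h1
      linarith
    have hmain : (star x ⬝ᵥ ((Sᴴ * E * S) *ᵥ x)).re < (star x ⬝ᵥ x).re := by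
      rw [e1]
      by_cases hw0 : w = 0
      · rw [hw0, mulVec_zero, dotProduct_zero]
        exact hx0
      · have h1 := (hpos.dotProduct_mulVec_pos hw0)
        rw [sub_mulVec, dotProduct_sub, e2, e3] at h1
        have h2 := (Complex.lt_def.1 h1).1
        simp only [Complex.zero_re, Complex.sub_re, RCLike.star_def, Complex.conj_re] at h2
        have h3 := hamgm (Sᴴ *ᵥ w)
        linarith
    have hher : (Sᴴ * E * S).IsHermitian := by
      show (Sᴴ * E * S)ᴴ = Sᴴ * E * S
      rw [conjTranspose_mul, conjTranspose_mul, conjTranspose_conjTranspose, hE.eq,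
        Matrix.mul_assoc]
    have himE : (star x ⬝ᵥ ((Sᴴ * E * S) *ᵥ x)).im = 0 := by
      have := hher.im_star_dotProduct_mulVec_self x
      simpa using this
    rw [sub_mulVec, one_mulVec, dotProduct_sub, Complex.lt_def]
    refine ⟨?_, ?_⟩
    · simp only [Complex.zero_re, Complex.sub_re]
      linarith
    · simp only [Complex.zero_im, Complex.sub_im]
      rw [him, himE, sub_zero]

/-- trace of the inverse -/
theorem trace_inv_eq {ι : Type*} [Fintype ι] [DecidableEq ι] {E S : Matrix ι ι ℂ}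
    (hG : (1 - Sᴴ * E * S).PosDef) :
    ((1 - Sᴴ * E * S)⁻¹).trace = ((1 - E * (S * Sᴴ))⁻¹).trace := by
  set G := 1 - Sᴴ * E * S with hGd
  have hdet : IsUnit G.det := (Matrix.isUnit_iff_isUnit_det _).1 hG.isUnit
  have h1 : G * G⁻¹ = 1 := Matrix.mul_nonsing_inv _ hdet
  have h2 : Sᴴ * E * S * G⁻¹ = G⁻¹ - 1 := by
    have : Sᴴ * E * S = 1 - G := by rw [hGd]; abel
    rw [this, Matrix.sub_mul, one_mul, h1]
  have h3 : (1 - E * (S * Sᴴ)) * (1 + E * S * G⁻¹ * Sᴴ) = 1 := by
    have h4 : E * (S * Sᴴ) * (E * S * G⁻¹ * Sᴴ) = E * S * (Sᴴ * E * S * G⁻¹) * Sᴴ := by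
      simp only [Matrix.mul_assoc]
    rw [Matrix.sub_mul, one_mul, Matrix.mul_add, mul_one, h4, h2, Matrix.mul_sub, mul_one,
      Matrix.sub_mul]
    simp only [Matrix.mul_assoc]
    abel
  rw [Matrix.inv_eq_right_inv h3, trace_add]
  have h5 : (E * S * G⁻¹ * Sᴴ).trace = (Sᴴ * E * S * G⁻¹).trace := by
    rw [Matrix.trace_mul_comm]
    simp only [Matrix.mul_assoc]
  rw [h5, h2, trace_sub]
  ring

end Pool.Agent.LDS
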